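import Mathlib
import Pool.Agent.Q8.KS.Perron

set_option autoImplicit false

open Filter Topology
open Pool.Agent.Q8.KS (IsCone cont_lin norm_le unit_le pow_mem)

namespace Run7.h334.KSR

variable {E : Type} [NormedAddCommGroup E] [NormedSpace ℝ E] [FiniteDimensional ℝ E]

omit [FiniteDimensional ℝ E] in
lemma sum_mem {C : Set E} (hC : IsCone C) {ι : Type} (s : Finset ι) (f : ι → E)
    (hf : ∀ i ∈ s, f i ∈ C) : ∑ i ∈ s, f i ∈ C := by
  classical
  induction s using Finset.induction_on with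
  | empty => simpa using hC.zero
  | insert a s ha ih =>
    rw [Finset.sum_insert ha]
    exact hC.add _ (hf a (Finset.mem_insert_self a s)) _
      (ih fun i hi => hf i (Finset.mem_insert_of_mem hi))

/-- An order unit in a closed cone. -/
lemma exists_unit {C : Set E} (hC : IsCone C) :
    ∃ H ∈ C, ∀ x ∈ C, ∃ κ : ℝ, 0 ≤ κ ∧ κ • H - x ∈ C := by
  classical
  obtain ⟨b, hb, hspan, hli⟩ := exists_linearIndependent ℝ C
  have hfin : b.Finite := hli.setFinite
  set S := hfin.toFinset with hS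
  have hmS : ∀ x, x ∈ S ↔ x ∈ b := fun x => hfin.mem_toFinset
  refine ⟨∑ i ∈ S, i, sum_mem hC S _ fun i hi => hb ((hmS i).1 hi), ?_⟩
  have key : ∀ x ∈ Submodule.span ℝ b, ∃ κ : ℝ, 0 ≤ κ ∧ κ • (∑ i ∈ S, i) - x ∈ C ∧
      κ • (∑ i ∈ S, i) + x ∈ C := by
    intro x hx
    induction hx using Submodule.span_induction with
    | mem x hx =>
      refine ⟨1, zero_le_one, ?_, ?_⟩
      · rw [one_smul, ← Finset.sum_erase_add S _ ((hmS x).2 hx), add_sub_cancel_right]
        exact sum_mem hC _ _ fun i hi => hb ((hmS i).1 (Finset.mem_of_mem_erase hi))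
      · rw [one_smul]
        exact hC.add _ (sum_mem hC S _ fun i hi => hb ((hmS i).1 hi)) _ (hb hx)
    | zero => exact ⟨0, le_rfl, by simpa using hC.zero, by simpa using hC.zero⟩
    | add x y _ _ h1 h2 =>
      obtain ⟨k1, hk1, a1, b1⟩ := h1
      obtain ⟨k2, hk2, a2, b2⟩ := h2
      refine ⟨k1 + k2, add_nonneg hk1 hk2, ?_, ?_⟩
      · have := hC.add _ a1 _ a2
        have e : k1 • (∑ i ∈ S, i) - x + (k2 • (∑ i ∈ S, i) - y)
            = (k1 + k2) • (∑ i ∈ S, i) - (x + y) := by rw [add_smul]; abel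
        rwa [e] at this
      · have := hC.add _ b1 _ b2
        have e : k1 • (∑ i ∈ S, i) + x + (k2 • (∑ i ∈ S, i) + y)
            = (k1 + k2) • (∑ i ∈ S, i) + (x + y) := by rw [add_smul]; abel
        rwa [e] at this
    | smul a x _ h =>
      obtain ⟨k, hk, a1, b1⟩ := h
      rcases le_total 0 a with ha | ha
      · refine ⟨a * k, mul_nonneg ha hk, ?_, ?_⟩
        · have := hC.smul a ha _ a1
          rwa [smul_sub, smul_smul] at this
        · have := hC.smul a ha _ b1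
          rwa [smul_add, smul_smul] at this
      · refine ⟨-a * k, mul_nonneg (by linarith) hk, ?_, ?_⟩
        · have := hC.smul (-a) (by linarith) _ b1
          have e : -a • (k • (∑ i ∈ S, i) + x) = (-a * k) • (∑ i ∈ S, i) - a • x := by
            rw [smul_add, smul_smul, neg_smul a x]; abel
          rwa [e] at this
        · have := hC.smul (-a) (by linarith) _ a1
          have e : -a • (k • (∑ i ∈ S, i) - x) = (-a * k) • (∑ i ∈ S, i) + a • x := by
            rw [smul_sub, smul_smul, neg_smul a x]; abel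
          rwa [e] at this
  intro x hx
  obtain ⟨κ, h1, h2, -⟩ := key x (by rw [hspan]; exact Submodule.subset_span hx)
  exact ⟨κ, h1, h2⟩

/-- **Perron-Frobenius** for an automorphism of a closed cone which may have no interior. -/
theorem perron {C : Set E} (hC : IsCone C) (l : E →ₗ[ℝ] ℝ) (hl : ∀ x ∈ C, x ≠ 0 → 0 < l x)
    (hne : ∃ x ∈ C, x ≠ 0) (B B' : E →ₗ[ℝ] E) (hB : ∀ x ∈ C, B x ∈ C)
    (hinv : ∀ x, B' (B x) = x) :
    ∃ d : ℝ, 0 < d ∧ ∃ v ∈ C, v ≠ 0 ∧ B v = d • v := by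
  obtain ⟨M, hM, hnorm⟩ := norm_le hC l hl
  obtain ⟨H, hHC, hunit⟩ := exists_unit hC
  have hnn : ∀ x ∈ C, 0 ≤ l x := by
    intro x hx
    by_cases h0 : x = 0
    · simp [h0]
    · exact (hl x hx h0).le
  have hH0 : H ≠ 0 := by
    intro h0
    obtain ⟨x, hx, hx0⟩ := hne
    obtain ⟨κ, -, hκ⟩ := hunit x hx
    rw [h0, smul_zero, zero_sub] at hκ
    have h1 := hl x hx hx0
    have h2 := hnn _ hκ
    rw [map_neg] at h2
    linarith
  -- the growth rates
  obtain ⟨N, hN, hBN⟩ : ∃ N : ℝ, 0 < N ∧ ∀ k : ℕ, l ((B ^ k) H) ≤ N ^ k * (N * ‖H‖) := by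
    let BL : E →L[ℝ] E := LinearMap.toContinuousLinearMap B
    let lL : E →L[ℝ] ℝ := LinearMap.toContinuousLinearMap l
    refine ⟨‖BL‖ + ‖lL‖ + 1, by positivity, fun k => ?_⟩
    have h1 : ‖(B ^ k) H‖ ≤ (‖BL‖ + ‖lL‖ + 1) ^ k * ‖H‖ := by
      induction k with
      | zero => simp
      | succ k ih =>
        have h6 : (B ^ (k + 1)) H = BL ((B ^ k) H) := by rw [pow_succ']; rfl
        rw [h6]
        refine (BL.le_opNorm _).trans ?_
        calc ‖BL‖ * ‖(B ^ k) H‖ ≤ (‖BL‖ + ‖lL‖ + 1) * ((‖BL‖ + ‖lL‖ + 1) ^ k * ‖H‖) := by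
              refine mul_le_mul ?_ ih (norm_nonneg _) (by positivity)
              linarith [norm_nonneg lL]
          _ = _ := by ring
    have h2 : l ((B ^ k) H) ≤ ‖lL‖ * ‖(B ^ k) H‖ := by
      have := lL.le_opNorm ((B ^ k) H)
      exact (le_abs_self _).trans this
    refine h2.trans ?_
    calc ‖lL‖ * ‖(B ^ k) H‖ ≤ (‖BL‖ + ‖lL‖ + 1) * ((‖BL‖ + ‖lL‖ + 1) ^ k * ‖H‖) := by
          refine mul_le_mul ?_ h1 (norm_nonneg _) (by positivity)
          linarith [norm_nonneg BL]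
      _ = _ := by ring
  obtain ⟨e, he, hBe⟩ : ∃ e : ℝ, 0 < e ∧ ∀ k : ℕ, e ^ k * ‖H‖ ≤ M * l ((B ^ k) H) := by
    let BL : E →L[ℝ] E := LinearMap.toContinuousLinearMap B'
    refine ⟨(‖BL‖ + 1)⁻¹, by positivity, fun k => ?_⟩
    have h1 : ‖H‖ ≤ (‖BL‖ + 1) ^ k * ‖(B ^ k) H‖ := by
      induction k with
      | zero => simp
      | succ k ih =>
        have h6 : (B ^ k) H = BL ((B ^ (k + 1)) H) := by
          rw [pow_succ']
          exact (hinv _).symm
        refine ih.trans ?_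
        rw [h6]
        calc (‖BL‖ + 1) ^ k * ‖BL ((B ^ (k + 1)) H)‖
            ≤ (‖BL‖ + 1) ^ k * ((‖BL‖ + 1) * ‖(B ^ (k + 1)) H‖) := by
              refine mul_le_mul_of_nonneg_left ?_ (by positivity)
              refine (BL.le_opNorm _).trans ?_
              exact mul_le_mul_of_nonneg_right (by linarith) (norm_nonneg _)
          _ = _ := by ring
    have h2 := hnorm _ (pow_mem hB k hHC)
    rw [inv_pow, inv_mul_le_iff₀ (by positivity)]
    exact h1.trans (mul_le_mul_of_nonneg_left h2 (by positivity))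
  have hHn : 0 < ‖H‖ := norm_pos_iff.2 hH0
  let D : Set ℝ := {t | 0 < t ∧ ∃ c : ℝ, ∀ k : ℕ, l ((B ^ k) H) ≤ c * t ^ k}
  have hDne : D.Nonempty := ⟨N, hN, N * ‖H‖, fun k => (hBN k).trans_eq (mul_comm _ _)⟩
  have hDlow : ∀ t ∈ D, e ≤ t := by
    rintro t ⟨ht0, c, hc⟩
    by_contra hlt
    push Not at hlt
    have h1 : ∀ k : ℕ, ‖H‖ ≤ M * c * (t / e) ^ k := by
      intro k
      have h2 := (hBe k).trans (mul_le_mul_of_nonneg_left (hc k) hM.le)
      rw [div_pow, ← mul_div_assoc, le_div_iff₀ (by positivity)]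
      linarith
    have h2 : Tendsto (fun k : ℕ => M * c * (t / e) ^ k) atTop (𝓝 (M * c * 0)) :=
      (tendsto_pow_atTop_nhds_zero_of_lt_one (by positivity) ((div_lt_one he).2 hlt)).const_mul _
    rw [mul_zero] at h2
    have h3 := ge_of_tendsto h2 (Eventually.of_forall h1)
    linarith
  have hDbdd : BddBelow D := ⟨e, hDlow⟩
  obtain ⟨d, hd⟩ : ∃ d : ℝ, d = sInf D := ⟨_, rfl⟩
  have hde : e ≤ d := by rw [hd]; exact le_csInf hDne hDlow
  have hd0 : 0 < d := he.trans_le hde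
  have hDup : ∀ t, d < t → ∃ r ∈ D, r < t := by
    intro t ht
    rw [hd] at ht
    exact exists_lt_of_csInf_lt hDne ht
  have hDlt : ∀ t, t < d → t ∉ D := by
    intro t ht htD
    have := csInf_le hDbdd htD
    rw [← hd] at this
    linarith
  refine ⟨d, hd0, ?_⟩
  -- the resolvent
  have hsum : ∀ t : ℝ, d < t → Summable fun k : ℕ => (t ^ (k + 1))⁻¹ • (B ^ k) H := by
    intro t ht
    have ht0 : 0 < t := hd0.trans ht
    obtain ⟨r, ⟨hr0, c, hc⟩, hrt⟩ := hDup t ht
    have hg : Summable fun k : ℕ => M * c * (t⁻¹ * (r / t) ^ k) := by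
      refine Summable.mul_left _ (Summable.mul_left _ ?_)
      exact summable_geometric_of_lt_one (by positivity) ((div_lt_one ht0).2 hrt)
    refine Summable.of_norm_bounded hg fun k => ?_
    have hmem := pow_mem hB k hHC
    rw [norm_smul, norm_inv, norm_pow, Real.norm_eq_abs, abs_of_pos ht0]
    calc (t ^ (k + 1))⁻¹ * ‖(B ^ k) H‖ ≤ (t ^ (k + 1))⁻¹ * (M * (c * r ^ k)) := by
          refine mul_le_mul_of_nonneg_left ((hnorm _ hmem).trans ?_) (by positivity)
          exact mul_le_mul_of_nonneg_left (hc k) hM.le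
      _ = M * c * (t⁻¹ * (r / t) ^ k) := by
          rw [div_pow, pow_succ, mul_inv]
          ring
  have hBc : Continuous B := B.continuous_of_finiteDimensional
  let BL : E →L[ℝ] E := ⟨B, hBc⟩
  let S : ℝ → E := fun t => ∑' k : ℕ, (t ^ (k + 1))⁻¹ • (B ^ k) H
  have hSmem : ∀ t, d < t → S t ∈ C := by
    intro t ht
    have ht0 : 0 < t := hd0.trans ht
    refine hC.closed.mem_of_tendsto (hsum t ht).hasSum.tendsto_sum_nat (Eventually.of_forall ?_)
    intro n
    induction n with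
    | zero => simpa using hC.zero
    | succ n ih =>
      rw [Finset.sum_range_succ]
      exact hC.add _ ih _ (hC.smul _ (by positivity) _ (pow_mem hB n hHC))
  have hSeq : ∀ t, d < t → t • S t = H + B (S t) := by
    intro t ht
    have ht0 : 0 < t := hd0.trans ht
    have h1 : B (S t) = ∑' k : ℕ, (t ^ (k + 1))⁻¹ • (B ^ (k + 1)) H := by
      have h2 : BL (S t) = ∑' k : ℕ, BL ((t ^ (k + 1))⁻¹ • (B ^ k) H) := BL.map_tsum (hsum t ht)
      have h3 : ∀ k : ℕ, BL ((t ^ (k + 1))⁻¹ • (B ^ k) H) = (t ^ (k + 1))⁻¹ • (B ^ (k + 1)) H := by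
        intro k
        have h6 : (B ^ (k + 1)) H = B ((B ^ k) H) := by rw [pow_succ']; rfl
        rw [map_smul, h6]
        rfl
      rw [tsum_congr h3] at h2
      exact h2
    have h4 : t • S t = ∑' k : ℕ, (t ^ k)⁻¹ • (B ^ k) H := by
      show t • (∑' k : ℕ, (t ^ (k + 1))⁻¹ • (B ^ k) H) = _
      rw [← Summable.tsum_const_smul t (hsum t ht)]
      refine tsum_congr fun k => ?_
      rw [smul_smul]
      congr 1
      rw [pow_succ]
      field_simp
    have h5 : Summable fun k : ℕ => (t ^ k)⁻¹ • (B ^ k) H := by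
      have := (hsum t ht).const_smul t
      refine this.congr fun k => ?_
      rw [smul_smul]
      congr 1
      rw [pow_succ]
      field_simp
    rw [h4, h5.tsum_eq_zero_add, h1]
    simp
  -- normalise
  let τ : ℕ → ℝ := fun j => d + 1 / ((j : ℝ) + 1)
  have hτ : ∀ j, d < τ j := by
    intro j
    show d < d + 1 / ((j : ℝ) + 1)
    have : (0 : ℝ) < 1 / ((j : ℝ) + 1) := by positivity
    linarith
  have hτlim : Tendsto τ atTop (𝓝 d) := by
    have := (tendsto_one_div_add_atTop_nhds_zero_nat (𝕜 := ℝ)).const_add d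
    rwa [add_zero] at this
  let lam : ℕ → ℝ := fun j => (1 + l (S (τ j)))⁻¹
  have hlS : ∀ j, 0 ≤ l (S (τ j)) := fun j => hnn _ (hSmem _ (hτ j))
  have hlam : ∀ j, lam j ∈ Set.Icc (0 : ℝ) 1 := by
    intro j
    have h1 := hlS j
    exact ⟨inv_nonneg.2 (by linarith), inv_le_one_of_one_le₀ (by linarith)⟩
  let w : ℕ → E := fun j => lam j • S (τ j)
  have hwC : ∀ j, w j ∈ C := fun j => hC.smul _ (hlam j).1 _ (hSmem _ (hτ j))
  have hlw : ∀ j, l (w j) = 1 - lam j := by
    intro j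
    show l (lam j • S (τ j)) = _
    rw [map_smul, smul_eq_mul]
    show (1 + l (S (τ j)))⁻¹ * l (S (τ j)) = 1 - (1 + l (S (τ j)))⁻¹
    have h1 : 1 + l (S (τ j)) ≠ 0 := by
      have := hlS j
      positivity
    field_simp
    ring
  have hwn : ∀ j, w j ∈ Metric.closedBall (0 : E) M := by
    intro j
    rw [mem_closedBall_zero_iff]
    refine (hnorm _ (hwC j)).trans ?_
    rw [hlw j]
    have := (hlam j).1
    nlinarith
  have hcomp : IsCompact (Metric.closedBall (0 : E) M ×ˢ Set.Icc (0 : ℝ) 1) :=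
    (isCompact_closedBall 0 M).prod isCompact_Icc
  obtain ⟨⟨v, mu⟩, hvmem, ψ, hψ, hlimv⟩ := hcomp.tendsto_subseq
    (x := fun j => (w j, lam j)) (fun j => ⟨hwn j, hlam j⟩)
  have hv1 : Tendsto (fun j => w (ψ j)) atTop (𝓝 v) := (continuous_fst.tendsto _).comp hlimv
  have hv2 : Tendsto (fun j => lam (ψ j)) atTop (𝓝 mu) := (continuous_snd.tendsto _).comp hlimv
  have hvC : v ∈ C := hC.closed.mem_of_tendsto hv1 (Eventually.of_forall fun j => hwC _)
  have hlv : l v = 1 - mu := by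
    have h1 : Tendsto (fun j => l (w (ψ j))) atTop (𝓝 (l v)) :=
      ((cont_lin l).tendsto v).comp hv1
    have h2 : Tendsto (fun j => 1 - lam (ψ j)) atTop (𝓝 (1 - mu)) := hv2.const_sub 1
    refine tendsto_nhds_unique h1 (h2.congr fun j => (hlw _).symm)
  have heq : d • v = mu • H + B v := by
    have h1 : Tendsto (fun j => τ (ψ j) • w (ψ j)) atTop (𝓝 (d • v)) :=
      (hτlim.comp hψ.tendsto_atTop).smul hv1
    have h2 : Tendsto (fun j => lam (ψ j) • H + B (w (ψ j))) atTop (𝓝 (mu • H + B v)) :=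
      (hv2.smul_const H).add ((hBc.tendsto v).comp hv1)
    refine tendsto_nhds_unique h1 (h2.congr fun j => ?_)
    show lam (ψ j) • H + B (lam (ψ j) • S (τ (ψ j))) = τ (ψ j) • lam (ψ j) • S (τ (ψ j))
    rw [map_smul, ← smul_add, ← hSeq _ (hτ _), smul_comm]
  by_cases hmu : mu = 0
  · refine ⟨v, hvC, ?_, ?_⟩
    · intro h0
      rw [h0, map_zero, hmu] at hlv
      norm_num at hlv
    · rw [hmu, zero_smul, zero_add] at heq
      exact heq.symm
  · exfalso
    have hmu0 : 0 < mu := lt_of_le_of_ne hvmem.2.1 (Ne.symm hmu)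
    obtain ⟨s, hs⟩ : ∃ s : E, s = mu⁻¹ • v := ⟨_, rfl⟩
    have hsC : s ∈ C := by rw [hs]; exact hC.smul _ (inv_nonneg.2 hmu0.le) _ hvC
    have hseq : d • s = H + B s := by
      rw [hs, smul_comm, heq, smul_add, smul_smul, inv_mul_cancel₀ hmu, one_smul, map_smul]
    have hBs : B s ∈ C := hB _ hsC
    have hs0 : s ≠ 0 := by
      intro h0
      rw [h0, smul_zero, map_zero, add_zero] at hseq
      exact hH0 hseq.symm
    have hls : 0 < l s := hl s hsC hs0
    obtain ⟨κ', hκ'0, hκ's⟩ := hunit s hsC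
    obtain ⟨κ, hκ⟩ : ∃ κ : ℝ, κ = κ' + 1 := ⟨_, rfl⟩
    have hκ0 : 0 < κ := by rw [hκ]; linarith
    have hκs : κ • H - s ∈ C := by
      have h1 := hC.add _ hκ's _ hHC
      have h2 : κ' • H - s + H = κ • H - s := by rw [hκ, add_smul, one_smul]; abel
      rwa [h2] at h1
    obtain ⟨ρ, hρ⟩ : ∃ ρ : ℝ, ρ = d - κ⁻¹ := ⟨_, rfl⟩
    have h1 : ρ • s - B s ∈ C := by
      have h2 : ρ • s - B s = κ⁻¹ • (κ • H - s) := by
        rw [smul_sub, smul_smul, inv_mul_cancel₀ hκ0.ne', one_smul, hρ, sub_smul, hseq]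
        abel
      rw [h2]
      exact hC.smul _ (inv_nonneg.2 hκ0.le) _ hκs
    have hρ0 : 0 ≤ ρ := by
      have h2 : 0 ≤ l (ρ • s) := by
        have h3 : ρ • s = (ρ • s - B s) + B s := by abel
        rw [h3]
        exact hnn _ (hC.add _ h1 _ hBs)
      rw [map_smul, smul_eq_mul] at h2
      exact nonneg_of_mul_nonneg_left h2 hls
    have h2 : ∀ m : ℕ, ρ ^ m • s - (B ^ m) s ∈ C := by
      intro m
      induction m with
      | zero => simpa using hC.zero
      | succ m ih =>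
        have h3 : ρ ^ (m + 1) • s - (B ^ (m + 1)) s
            = ρ ^ m • (ρ • s - B s) + B (ρ ^ m • s - (B ^ m) s) := by
          have h6 : (B ^ (m + 1)) s = B ((B ^ m) s) := by rw [pow_succ']; rfl
          rw [map_sub, map_smul, smul_sub, smul_smul, pow_succ, h6]
          abel
        rw [h3]
        exact hC.add _ (hC.smul _ (pow_nonneg hρ0 _) _ h1) _ (hB _ ih)
    have h3 : ∀ m : ℕ, l ((B ^ m) H) ≤ d * l s * ρ ^ m := by
      intro m
      have h4 : (B ^ m) (B s) ∈ C := pow_mem hB m hBs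
      have h5 : (B ^ m) H = d • (B ^ m) s - (B ^ m) (B s) := by
        rw [← map_smul, ← map_sub, hseq]
        simp
      have h6 := hnn _ (h2 m)
      rw [map_sub, map_smul, smul_eq_mul] at h6
      have h7 := hnn _ h4
      rw [h5, map_sub, map_smul, smul_eq_mul]
      nlinarith
    have h6 : 0 < κ⁻¹ := inv_pos.2 hκ0
    have h7 : max ρ (d / 2) < d := max_lt (by rw [hρ]; linarith) (by linarith)
    refine hDlt _ h7 ⟨lt_max_of_lt_right (by linarith), d * l s, fun k => ?_⟩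
    refine (h3 k).trans ?_
    refine mul_le_mul_of_nonneg_left ?_ (by positivity)
    exact pow_le_pow_left₀ hρ0 (le_max_left _ _) k

/-- **A common eigenvector** of a commutative group of automorphisms of a closed cone. -/
theorem common {Λ : Type} (T T' : Λ → E →ₗ[ℝ] E) (hcomm : ∀ v w x, T v (T w x) = T w (T v x))
    (hinv : ∀ v x, T' v (T v x) = x) {C : Set E} (hC : IsCone C) (l : E →ₗ[ℝ] ℝ)
    (hl : ∀ x ∈ C, x ≠ 0 → 0 < l x) (hne : ∃ x ∈ C, x ≠ 0) (hT : ∀ v, ∀ x ∈ C, T v x ∈ C) :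
    ∃ c ∈ C, c ≠ 0 ∧ ∀ v, ∃ δ : ℝ, 0 < δ ∧ T v c = δ • c := by
  classical
  let P : ℕ → Prop := fun n => ∃ F : Set E, F ⊆ C ∧ IsCone F ∧ (∃ x ∈ F, x ≠ 0) ∧
    (∀ v, ∀ x ∈ F, T v x ∈ F) ∧ Module.finrank ℝ (Submodule.span ℝ F) = n
  have hP : ∃ n, P n := ⟨_, C, subset_rfl, hC, hne, hT, rfl⟩
  obtain ⟨F, hFC, hF, hFne, hFT, hFn⟩ := Nat.find_spec hP
  obtain ⟨c, hcF, hc0⟩ := hFne
  refine ⟨c, hFC hcF, hc0, fun v => ?_⟩
  obtain ⟨δ, hδ, w, hw, hw0, hTw⟩ := perron hF l (fun x hx => hl x (hFC hx)) ⟨c, hcF, hc0⟩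
    (T v) (T' v) (hFT v) (hinv v)
  let F' : Set E := {x | x ∈ F ∧ T v x = δ • x}
  have hF'F : F' ⊆ F := fun x hx => hx.1
  have hF' : IsCone F' := by
    refine ⟨?_, ⟨hF.zero, by simp⟩, ?_, ?_⟩
    · exact hF.closed.inter (isClosed_eq (T v).continuous_of_finiteDimensional
        (continuous_const_smul δ))
    · rintro x ⟨hx, hx'⟩ y ⟨hy, hy'⟩
      exact ⟨hF.add _ hx _ hy, by rw [map_add, hx', hy', smul_add]⟩
    · rintro a ha x ⟨hx, hx'⟩
      exact ⟨hF.smul a ha _ hx, by rw [map_smul, hx', smul_comm]⟩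
  have hle : Submodule.span ℝ F' ≤ Submodule.span ℝ F := Submodule.span_mono hF'F
  have hge : Nat.find hP ≤ Module.finrank ℝ (Submodule.span ℝ F') := by
    refine Nat.find_min' hP ⟨F', hF'F.trans hFC, hF', ⟨w, ⟨hw, hTw⟩, hw0⟩, ?_, rfl⟩
    rintro u x ⟨hx, hx'⟩
    exact ⟨hFT u x hx, by rw [hcomm, hx', map_smul]⟩
  have heq : Submodule.span ℝ F' = Submodule.span ℝ F :=
    Submodule.eq_of_le_of_finrank_le hle (by rw [hFn]; exact hge)
  refine ⟨δ, hδ, ?_⟩
  have hcs : c ∈ Submodule.span ℝ F' := by rw [heq]; exact Submodule.subset_span hcF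
  have hker : Submodule.span ℝ F' ≤ LinearMap.ker (T v - δ • (LinearMap.id : E →ₗ[ℝ] E)) := by
    rw [Submodule.span_le]
    rintro x ⟨-, hx⟩
    show (T v - δ • (LinearMap.id : E →ₗ[ℝ] E)) x = 0
    rw [LinearMap.sub_apply, hx]
    simp
  have h1 := hker hcs
  rw [LinearMap.mem_ker, LinearMap.sub_apply] at h1
  simpa [sub_eq_zero] using h1

end Run7.h334.KSR
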