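import Mathlib
import Pool.Agent.Run7.h334.KSR.Cone

set_option autoImplicit false

open Function
open Pool.Agent.Q8.KS (IsCone)

namespace Run7.h334.KSR

variable {E : Type} [NormedAddCommGroup E] [NormedSpace ℝ E]

/-- Two isotropic vectors in the positive cone of a form of hyperbolic type which are orthogonal
are proportional as functionals. -/
lemma prop_form (Q : E →ₗ[ℝ] E →ₗ[ℝ] ℝ) (hs : ∀ x y, Q x y = Q y x) {A c c' : E}
    (hodge : ∀ D, Q D D * Q A A ≤ Q D A ^ 2) (hA : 0 < Q A A) (hc : 0 ≤ Q c c)
    (hc' : 0 ≤ Q c' c') (h0 : Q c c' = 0) (X : E) :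
    Q c' A * Q c X = Q c A * Q c' X := by
  obtain ⟨a, ha⟩ : ∃ a : ℝ, a = Q c' A := ⟨_, rfl⟩
  obtain ⟨b, hb⟩ : ∃ b : ℝ, b = Q c A := ⟨_, rfl⟩
  obtain ⟨Z, hZ⟩ : ∃ Z : E, Z = a • c - b • c' := ⟨_, rfl⟩
  have h1 : Q Z A = 0 := by
    rw [hZ]
    simp only [map_sub, map_smul, LinearMap.sub_apply, LinearMap.smul_apply, smul_eq_mul]
    rw [← ha, ← hb]
    ring
  have h2 : Q Z Z = a ^ 2 * Q c c + b ^ 2 * Q c' c' := by
    rw [hZ]
    simp only [map_sub, map_smul, LinearMap.sub_apply, LinearMap.smul_apply, smul_eq_mul]
    rw [hs c' c, h0]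
    ring
  have h3 : Q Z Z = 0 := by
    have h4 := hodge Z
    rw [h1] at h4
    have h5 : 0 ≤ Q Z Z := by rw [h2]; positivity
    nlinarith
  obtain ⟨q, hq⟩ : ∃ q : ℝ, q = Q Z X := ⟨_, rfl⟩
  obtain ⟨p, hp⟩ : ∃ p : ℝ, p = Q A A := ⟨_, rfl⟩
  obtain ⟨w, hw⟩ : ∃ w : ℝ, w = Q X A ^ 2 - Q X X * p := ⟨_, rfl⟩
  have h4 : ∀ t : ℝ, 2 * t * q * p ≤ t ^ 2 * w := by
    intro t
    have h5 := hodge (Z + t • X)
    simp only [map_add, map_smul, LinearMap.add_apply, LinearMap.smul_apply, smul_eq_mul] at h5
    rw [h1, h3, hs X Z, ← hq, ← hp] at h5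
    rw [hw]
    nlinarith
  have hp0 : 0 < p := by rw [hp]; exact hA
  have hq0 : q = 0 := by
    by_contra hne
    have hqp : 0 < q ^ 2 * p ^ 2 := by positivity
    have h5 := h4 (q * p / (|w| + 1))
    have hw1 : 0 < |w| + 1 := by positivity
    have h6 : 2 * (q * p / (|w| + 1)) * q * p = 2 * (q ^ 2 * p ^ 2) / (|w| + 1) := by ring
    have h7 : (q * p / (|w| + 1)) ^ 2 * w = q ^ 2 * p ^ 2 * w / (|w| + 1) ^ 2 := by
      rw [div_pow]; ring
    rw [h6, h7, div_le_div_iff₀ hw1 (by positivity)] at h5
    have h8 : w ≤ |w| + 1 := by linarith [le_abs_self w]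
    have h9 : q ^ 2 * p ^ 2 * w * (|w| + 1) ≤ q ^ 2 * p ^ 2 * (|w| + 1) * (|w| + 1) := by
      refine mul_le_mul_of_nonneg_right ?_ hw1.le
      exact mul_le_mul_of_nonneg_left h8 hqp.le
    have h10 : 0 < q ^ 2 * p ^ 2 * (|w| + 1) * (|w| + 1) := by positivity
    nlinarith
  rw [hq0, hZ] at hq
  simp only [map_sub, map_smul, LinearMap.sub_apply, LinearMap.smul_apply, smul_eq_mul] at hq
  rw [← ha, ← hb]
  linarith

variable {n : ℕ}

/-- The classical properties of the intersection numbers of nef classes. -/
structure Geo (I : MultilinearMap ℝ (fun _ : Fin n => E) ℝ) (C : Set E) : Prop where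
  cone : IsCone C
  symm : ∀ (σ : Equiv.Perm (Fin n)) (D : Fin n → E), I (D ∘ σ) = I D
  nonneg : ∀ D : Fin n → E, (∀ i, D i ∈ C) → 0 ≤ I D
  hodge : ∀ i j, i ≠ j → ∀ N : Fin n → E, (∀ k, N k ∈ C) → ∀ A ∈ C, ∀ D : E,
    I (update (update N i D) j D) * I (update (update N i A) j A)
      ≤ I (update (update N i D) j A) ^ 2

variable {I : MultilinearMap ℝ (fun _ : Fin n => E) ℝ} {C : Set E}

/-- The bilinear form in two of the entries. -/
noncomputable def form (I : MultilinearMap ℝ (fun _ : Fin n => E) ℝ) (N : Fin n → E) {i j : Fin n}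
    (hij : i ≠ j) : E →ₗ[ℝ] E →ₗ[ℝ] ℝ :=
  LinearMap.mk₂ ℝ (fun x y => I (update (update N i x) j y))
    (by
      intro x x' y
      rw [update_comm hij, update_comm hij, update_comm hij, I.map_update_add])
    (by
      intro t x y
      rw [update_comm hij, update_comm hij, I.map_update_smul])
    (by
      intro x y y'
      rw [I.map_update_add])
    (by
      intro t x y
      rw [I.map_update_smul])

lemma form_apply (I : MultilinearMap ℝ (fun _ : Fin n => E) ℝ) (N : Fin n → E) {i j : Fin n}
    (hij : i ≠ j) (x y : E) : form I N hij x y = I (update (update N i x) j y) := rfl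

omit [NormedAddCommGroup E] [NormedSpace ℝ E] in
lemma update_mem {N : Fin n → E} (hN : ∀ k, N k ∈ C) (i : Fin n) {x : E} (hx : x ∈ C) (k : Fin n) :
    update N i x k ∈ C := by
  by_cases h : k = i
  · subst h; rw [update_self]; exact hx
  · rw [update_of_ne h]; exact hN k

omit [NormedAddCommGroup E] [NormedSpace ℝ E] in
lemma swap_update (N : Fin n → E) {i j : Fin n} (hij : i ≠ j) (x y : E) :
    update (update N i x) j y ∘ Equiv.swap i j = update (update N i y) j x := by
  funext k
  rw [comp_apply]
  by_cases hki : k = i
  · subst hki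
    rw [Equiv.swap_apply_left, update_self, update_of_ne hij, update_self]
  · by_cases hkj : k = j
    · subst hkj
      rw [Equiv.swap_apply_right, update_of_ne hij, update_self, update_self]
    · rw [Equiv.swap_apply_of_ne_of_ne hki hkj, update_of_ne hkj, update_of_ne hki,
        update_of_ne hkj, update_of_ne hki]

lemma prop_int (g : Geo I C) {i j : Fin n} (hij : i ≠ j) {N : Fin n → E} (hN : ∀ k, N k ∈ C)
    {A c c' : E} (hAC : A ∈ C) (hcC : c ∈ C) (hcC' : c' ∈ C)
    (hA : 0 < I (update (update N i A) j A)) (h0 : I (update (update N i c) j c') = 0) (X : E) :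
    I (update (update N i c') j A) * I (update (update N i c) j X)
      = I (update (update N i c) j A) * I (update (update N i c') j X) := by
  have h := prop_form (form I N hij) (fun x y => by
      rw [form_apply, form_apply, ← swap_update N hij x y, g.symm])
    (A := A) (c := c) (c' := c')
    (fun D => g.hodge i j hij N hN A hAC D) hA
    (g.nonneg _ (update_mem (update_mem hN i hcC) j hcC))
    (g.nonneg _ (update_mem (update_mem hN i hcC') j hcC')) h0 X
  exact h

lemma mono (g : Geo I C) {X Y : Fin n → E} (hX : ∀ k, X k ∈ C) (hY : ∀ k, Y k ∈ C)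
    (hXY : ∀ k, ∃ κ : ℝ, 0 < κ ∧ κ • Y k - X k ∈ C) : ∃ κ : ℝ, 0 < κ ∧ I X ≤ κ * I Y := by
  classical
  have key : ∀ s : Finset (Fin n), ∃ κ : ℝ, 0 < κ ∧ I X ≤ κ * I (s.piecewise Y X) := by
    intro s
    induction s using Finset.induction_on with
    | empty => exact ⟨1, one_pos, by rw [Finset.piecewise_empty, one_mul]⟩
    | insert a s ha ih =>
      obtain ⟨κ, hκ, h1⟩ := ih
      obtain ⟨κ', hκ', h2⟩ := hXY a
      have hZ : ∀ k, s.piecewise Y X k ∈ C := by
        intro k
        by_cases hk : k ∈ s
        · rw [Finset.piecewise_eq_of_mem _ _ _ hk]; exact hY k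
        · rw [Finset.piecewise_eq_of_notMem _ _ _ hk]; exact hX k
      have h3 := g.nonneg _ (update_mem hZ a h2)
      have h4 : I (update (s.piecewise Y X) a (κ' • Y a - X a))
          = κ' * I (update (s.piecewise Y X) a (Y a)) - I (s.piecewise Y X) := by
        rw [I.map_update_sub, I.map_update_smul, smul_eq_mul]
        congr 2
        have : X a = s.piecewise Y X a := (Finset.piecewise_eq_of_notMem _ _ _ ha).symm
        rw [this, update_eq_self]
      refine ⟨κ * κ', mul_pos hκ hκ', ?_⟩
      rw [Finset.piecewise_insert]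
      rw [h4] at h3
      refine h1.trans ?_
      rw [mul_assoc]
      exact mul_le_mul_of_nonneg_left (by linarith) hκ.le
  obtain ⟨κ, hκ, h⟩ := key Finset.univ
  rw [Finset.piecewise_univ] at h
  exact ⟨κ, hκ, h⟩

/-- An order unit of the cone `C`. -/
def OU (C : Set E) (D : E) : Prop := D ∈ C ∧ ∀ x : E, ∃ κ : ℝ, 0 < κ ∧ κ • D - x ∈ C

/-- A group acting on the classes. -/
structure Act (I : MultilinearMap ℝ (fun _ : Fin n => E) ℝ) (C : Set E) {Λ : Type}
    [AddCommGroup Λ] (T : Λ → E →ₗ[ℝ] E) : Prop where
  zero : ∀ x, T 0 x = x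
  add : ∀ v w x, T (v + w) x = T v (T w x)
  mem : ∀ v, ∀ x ∈ C, T v x ∈ C
  inv : ∀ v (D : Fin n → E), I (fun k => T v (D k)) = I D

variable {Λ : Type} [AddCommGroup Λ] {T : Λ → E →ₗ[ℝ] E}

lemma Act.ou (a : Act I C T) {A : E} (hA : OU C A) (v : Λ) : OU C (T v A) := by
  refine ⟨a.mem v A hA.1, fun x => ?_⟩
  obtain ⟨κ, hκ, h⟩ := hA.2 (T (-v) x)
  refine ⟨κ, hκ, ?_⟩
  have := a.mem v _ h
  rwa [map_sub, map_smul, ← a.add, add_neg_cancel, a.zero] at this

/-- **Common eigenvectors with different characters have a positive intersection number.** -/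
theorem int_pos (g : Geo I C) (a : Act I C T) {A : E} (hA : OU C A)
    (hA1 : 0 < I (fun _ => A)) {c : Fin n → E} (hc : ∀ i, c i ∈ C)
    (hc1 : ∀ i, 0 < I (update (fun _ => A) i (c i)))
    {χ : Fin n → Λ → ℝ} (hχ : ∀ i v, T v (c i) = χ i v • c i) (hχ0 : ∀ i v, 0 < χ i v)
    (hne : ∀ i j, i ≠ j → χ i ≠ χ j) (S : Finset (Fin n)) :
    0 < I (S.piecewise c (fun _ => A)) := by
  classical
  induction S using Finset.strongInduction with
  | H S ih =>
    -- small sets
    rcases S.eq_empty_or_nonempty with h0 | ⟨i, hi⟩
    · rw [h0, Finset.piecewise_empty]; exact hA1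
    by_cases h1 : (S.erase i) = ∅
    · have : S = insert i ∅ := by rw [← h1, Finset.insert_erase hi]
      rw [this, Finset.piecewise_insert, Finset.piecewise_empty]
      exact hc1 i
    obtain ⟨j, hj⟩ := Finset.nonempty_iff_ne_empty.2 h1
    obtain ⟨S', hS'⟩ : ∃ S' : Finset (Fin n), S' = (S.erase i).erase j := ⟨_, rfl⟩
    have hji : j ≠ i := Finset.ne_of_mem_erase hj
    have hij : i ≠ j := hji.symm
    have hS : S = insert j (insert i S') := by
      rw [Finset.insert_comm, hS', Finset.insert_erase hj, Finset.insert_erase hi]
    have hiS' : i ∉ S' := by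
      rw [hS']
      simp
    have hjS' : j ∉ S' := by
      rw [hS']
      simp
    have hiS : insert i S' ⊂ S := by
      rw [hS]
      exact Finset.ssubset_insert (by simp [hji, hjS'])
    have hjS : insert j S' ⊂ S := by
      rw [hS, Finset.insert_comm]
      exact Finset.ssubset_insert (by simp [hij, hiS'])
    have hS'S : S' ⊂ S := (Finset.subset_insert i S').trans_ssubset hiS
    have pi := ih _ hiS
    have pj := ih _ hjS
    have p0 := ih _ hS'S
    rw [Finset.piecewise_insert] at pi pj
    -- the tuples
    have hP : ∀ D : Fin n → E, (∀ k, D k ∈ C) → ∀ k, S'.piecewise c D k ∈ C := by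
      intro D hD k
      by_cases hk : k ∈ S'
      · rw [Finset.piecewise_eq_of_mem _ _ _ hk]; exact hc k
      · rw [Finset.piecewise_eq_of_notMem _ _ _ hk]; exact hD k
    -- comparison of tuples
    have hcomp : ∀ (D D' : Fin n → E), (∀ k, OU C (D k)) → (∀ k, OU C (D' k)) →
        ∀ k, ∃ κ : ℝ, 0 < κ ∧ κ • S'.piecewise c D k - S'.piecewise c D' k ∈ C := by
      intro D D' hD hD' k
      by_cases hk : k ∈ S'
      · rw [Finset.piecewise_eq_of_mem _ _ _ hk, Finset.piecewise_eq_of_mem _ _ _ hk]
        exact ⟨1, one_pos, by rw [one_smul, sub_self]; exact g.cone.zero⟩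
      · rw [Finset.piecewise_eq_of_notMem _ _ _ hk, Finset.piecewise_eq_of_notMem _ _ _ hk]
        exact (hD k).2 _
    have hcompu : ∀ (X Y : Fin n → E), (∀ k, ∃ κ : ℝ, 0 < κ ∧ κ • X k - Y k ∈ C) →
        ∀ (l : Fin n) (z z' : E), (∃ κ : ℝ, 0 < κ ∧ κ • z - z' ∈ C) →
        ∀ k, ∃ κ : ℝ, 0 < κ ∧ κ • update X l z k - update Y l z' k ∈ C := by
      intro X Y hXY l z z' hz k
      by_cases hk : k = l
      · subst hk
        rw [update_self, update_self]
        exact hz
      · rw [update_of_ne hk, update_of_ne hk]
        exact hXY k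
    have hpw : ∀ k, k ∉ S' → S'.piecewise c (fun _ => A) k = A := by
      intro k hk
      rw [Finset.piecewise_eq_of_notMem _ _ _ hk]
    have hrefl : ∀ z : E, ∃ κ : ℝ, 0 < κ ∧ κ • z - z ∈ C := fun z =>
      ⟨1, one_pos, by rw [one_smul, sub_self]; exact g.cone.zero⟩
    -- suppose that the number vanishes
    by_contra hcon
    have hSC : ∀ k, S.piecewise c (fun _ => A) k ∈ C := by
      intro k
      by_cases hk : k ∈ S
      · rw [Finset.piecewise_eq_of_mem _ _ _ hk]; exact hc k
      · rw [Finset.piecewise_eq_of_notMem _ _ _ hk]; exact hA.1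
    have hzero : I (S.piecewise c (fun _ => A)) = 0 :=
      le_antisymm (not_lt.1 hcon) (g.nonneg _ hSC)
    rw [hS, Finset.piecewise_insert, Finset.piecewise_insert] at hzero
    -- the number for `c j` in the place `i`
    have pj' : 0 < I (update (S'.piecewise c (fun _ => A)) i (c j)) := by
      have h2 : update (S'.piecewise c (fun _ => A)) j (c j) ∘ Equiv.swap i j
          = update (S'.piecewise c (fun _ => A)) i (c j) := by
        have h3 : update (S'.piecewise c (fun _ => A)) j (c j)
            = update (update (S'.piecewise c (fun _ => A)) i A) j (c j) := by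
          congr 1
          symm
          rw [update_eq_self_iff]
          exact (hpw i hiS').symm
        rw [h3, swap_update _ hij]
        rw [update_comm hij]
        congr 1
        rw [update_eq_self_iff]
        exact (hpw j hjS').symm
      rw [← h2, g.symm]
      exact pj
    -- the vanishing in the other places
    have hzero' : ∀ k, k ∉ S' → k ≠ i →
        I (update (update (S'.piecewise c (fun _ => A)) i (c i)) k (c j)) = 0 := by
      intro k hkS hki
      by_cases hkj : k = j
      · rw [hkj]; exact hzero
      have h2 : update (update (S'.piecewise c (fun _ => A)) i (c i)) j (c j) ∘ Equiv.swap j k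
          = update (update (S'.piecewise c (fun _ => A)) i (c i)) k (c j) := by
        have h3 : update (update (S'.piecewise c (fun _ => A)) i (c i)) j (c j)
            = update (update (update (S'.piecewise c (fun _ => A)) i (c i)) j (c j)) k A := by
          symm
          rw [update_eq_self_iff, update_of_ne hkj, update_of_ne hki]
          exact (hpw k hkS).symm
        rw [h3, swap_update _ (Ne.symm hkj)]
        congr 1
        rw [update_eq_self_iff, update_of_ne hji]
        exact (hpw j hjS').symm
      rw [← h2, g.symm]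
      exact hzero
    -- the exchange
    have hpos : ∀ z : E, z ∈ C → 0 < I (update (S'.piecewise c (fun _ => A)) i z) →
        ∀ D : Fin n → E, (∀ k, OU C (D k)) → 0 < I (update (S'.piecewise c D) i z) := by
      intro z hz hpz D hD
      obtain ⟨κ, hκ, hle⟩ := mono g (update_mem (hP _ fun _ => hA.1) i hz)
        (update_mem (hP D fun k => (hD k).1) i hz)
        (hcompu _ _ (hcomp D (fun _ => A) hD fun _ => hA) i z z (hrefl z))
      exact (mul_pos_iff_of_pos_left hκ).1 (hpz.trans_le hle)
    have hex : ∀ D : Fin n → E, (∀ k, OU C (D k)) → ∀ k, k ∉ S' → k ≠ i → ∀ X : E,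
        I (update (S'.piecewise c D) i (c j)) * I (update (S'.piecewise c (update D k X)) i (c i))
          = I (update (S'.piecewise c D) i (c i))
            * I (update (S'.piecewise c (update D k X)) i (c j)) := by
      intro D hD k hkS hki X
      have hik : i ≠ k := Ne.symm hki
      have e1 : ∀ z, update (S'.piecewise c (update D k X)) i z
          = update (update (S'.piecewise c D) i z) k X := by
        intro z
        rw [← Finset.update_piecewise_of_notMem _ _ _ hkS, update_comm hki]
      have e2 : ∀ z, update (S'.piecewise c D) i z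
          = update (update (S'.piecewise c D) i z) k (D k) := by
        intro z
        symm
        rw [update_eq_self_iff, update_of_ne hki]
        exact (Finset.piecewise_eq_of_notMem _ _ _ hkS).symm
      rw [e1, e1, e2 (c j), e2 (c i)]
      rw [update_idem, update_idem]
      refine prop_int g hik (hP D fun k => (hD k).1) (hD k).1 (hc i) (hc j) ?_ ?_ X
      · -- positivity of `Q(D k, D k)`
        obtain ⟨κ, hκ, hle⟩ := mono g (hP (fun _ => A) fun _ => hA.1)
          (update_mem (update_mem (hP D fun k => (hD k).1) i (hD k).1) k (hD k).1) (by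
            intro l
            by_cases hlk : l = k
            · subst hlk
              rw [update_self]
              exact (hD l).2 _
            · rw [update_of_ne hlk]
              by_cases hli : l = i
              · subst hli
                rw [update_self]
                exact (hD k).2 _
              · rw [update_of_ne hli]
                exact hcomp D (fun _ => A) hD (fun _ => hA) l)
        exact (mul_pos_iff_of_pos_left hκ).1 (p0.trans_le hle)
      · obtain ⟨κ, hκ, hle⟩ := mono g
          (update_mem (update_mem (hP D fun k => (hD k).1) i (hc i)) k (hc j))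
          (update_mem (update_mem (hP (fun _ => A) fun _ => hA.1) i (hc i)) k (hc j))
          (hcompu _ _ (hcompu _ _ (hcomp (fun _ => A) D (fun _ => hA) hD) i (c i) (c i)
            (hrefl _)) k (c j) (c j) (hrefl _))
        rw [hzero' k hkS hki, mul_zero] at hle
        exact le_antisymm hle
          (g.nonneg _ (update_mem (update_mem (hP D fun k => (hD k).1) i (hc i)) k (hc j)))
    -- the ratio is constant
    have hratio : ∀ v : Λ, I (update (S'.piecewise c (fun _ => A)) i (c j))
          * I (update (S'.piecewise c (fun _ => T v A)) i (c i))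
        = I (update (S'.piecewise c (fun _ => A)) i (c i))
          * I (update (S'.piecewise c (fun _ => T v A)) i (c j)) := by
      intro v
      have hOU : ∀ (s : Finset (Fin n)) k, OU C (s.piecewise (fun _ => T v A) (fun _ => A) k) := by
        intro s k
        by_cases hk : k ∈ s
        · rw [Finset.piecewise_eq_of_mem _ _ _ hk]; exact a.ou hA v
        · rw [Finset.piecewise_eq_of_notMem _ _ _ hk]; exact hA
      have key : ∀ s : Finset (Fin n),
          I (update (S'.piecewise c (fun _ => A)) i (c j))
            * I (update (S'.piecewise c (s.piecewise (fun _ => T v A) (fun _ => A))) i (c i))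
          = I (update (S'.piecewise c (fun _ => A)) i (c i))
            * I (update (S'.piecewise c (s.piecewise (fun _ => T v A) (fun _ => A))) i (c j)) := by
        intro s
        induction s using Finset.induction_on with
        | empty => rw [Finset.piecewise_empty, mul_comm]
        | insert k s hk ih2 =>
          rw [Finset.piecewise_insert]
          by_cases hkS : k ∈ S'
          · have e : S'.piecewise c
                (update (s.piecewise (fun _ => T v A) (fun _ => A)) k (T v A))
                = S'.piecewise c (s.piecewise (fun _ => T v A) (fun _ => A)) := by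
              funext l
              by_cases hl : l ∈ S'
              · rw [Finset.piecewise_eq_of_mem _ _ _ hl, Finset.piecewise_eq_of_mem _ _ _ hl]
              · rw [Finset.piecewise_eq_of_notMem _ _ _ hl,
                  Finset.piecewise_eq_of_notMem _ _ _ hl, update_of_ne]
                rintro rfl
                exact hl hkS
            rw [e]
            exact ih2
          by_cases hki : k = i
          · have e : ∀ z, update (S'.piecewise c
                (update (s.piecewise (fun _ => T v A) (fun _ => A)) k (T v A))) i z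
                = update (S'.piecewise c (s.piecewise (fun _ => T v A) (fun _ => A))) i z := by
              intro z
              rw [← Finset.update_piecewise_of_notMem _ _ _ hkS, hki, update_idem]
            rw [e, e]
            exact ih2
          have h5 := hex _ (hOU s) k hkS hki (T v A)
          have h6 := hpos (c j) (hc j) pj' _ (hOU s)
          refine mul_left_cancel₀ h6.ne' ?_
          calc I (update (S'.piecewise c (s.piecewise (fun _ => T v A) fun _ => A)) i (c j))
                * (I (update (S'.piecewise c fun _ => A) i (c j))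
                * I (update (S'.piecewise c
                  (update (s.piecewise (fun _ => T v A) fun _ => A) k (T v A))) i (c i)))
              = I (update (S'.piecewise c fun _ => A) i (c j))
                * (I (update (S'.piecewise c (s.piecewise (fun _ => T v A) fun _ => A)) i (c j))
                * I (update (S'.piecewise c
                  (update (s.piecewise (fun _ => T v A) fun _ => A) k (T v A))) i (c i))) := by
                ring
            _ = I (update (S'.piecewise c fun _ => A) i (c j))
                * I (update (S'.piecewise c (s.piecewise (fun _ => T v A) fun _ => A)) i (c i))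
                * I (update (S'.piecewise c
                  (update (s.piecewise (fun _ => T v A) fun _ => A) k (T v A))) i (c j)) := by
                rw [h5]; ring
            _ = _ := by rw [ih2]; ring
      have h7 := key Finset.univ
      rw [Finset.piecewise_univ] at h7
      exact h7
    -- the characters agree
    have hchar : ∀ (v : Λ) (m : Fin n), I (update (S'.piecewise c (fun _ => T v A)) i (c m))
        = (∏ k ∈ S', χ k (-v)) * χ m (-v) * I (update (S'.piecewise c (fun _ => A)) i (c m)) := by
      intro v m
      rw [← a.inv (-v)]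
      have e : (fun k => T (-v) (update (S'.piecewise c (fun _ => T v A)) i (c m) k))
          = fun k => (if k ∈ insert i S' then (if k = i then χ m (-v) else χ k (-v)) else 1)
            • update (S'.piecewise c (fun _ => A)) i (c m) k := by
        funext k
        by_cases hki : k = i
        · subst hki
          rw [update_self, update_self, hχ]
          simp
        · rw [update_of_ne hki, update_of_ne hki]
          by_cases hkS : k ∈ S'
          · rw [Finset.piecewise_eq_of_mem _ _ _ hkS, Finset.piecewise_eq_of_mem _ _ _ hkS, hχ]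
            simp [hkS, hki]
          · rw [Finset.piecewise_eq_of_notMem _ _ _ hkS, Finset.piecewise_eq_of_notMem _ _ _ hkS,
              ← a.add, neg_add_cancel, a.zero]
            simp [hkS, hki]
      rw [e, I.map_smul_univ, smul_eq_mul]
      congr 1
      rw [Finset.prod_ite_mem, Finset.univ_inter, Finset.prod_insert hiS', if_pos rfl, mul_comm]
      congr 1
      refine Finset.prod_congr rfl fun k hk => ?_
      rw [if_neg]
      rintro rfl
      exact hiS' hk
    refine hne i j hij ?_
    funext v
    have h8 := hratio (-v)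
    rw [hchar (-v) i, hchar (-v) j, neg_neg] at h8
    have hπ : 0 < ∏ k ∈ S', χ k v := Finset.prod_pos fun k _ => hχ0 k v
    have h9 : (I (update (S'.piecewise c fun _ => A) i (c j))
        * I (update (S'.piecewise c fun _ => A) i (c i)) * ∏ k ∈ S', χ k v) * χ i v
        = (I (update (S'.piecewise c fun _ => A) i (c j))
        * I (update (S'.piecewise c fun _ => A) i (c i)) * ∏ k ∈ S', χ k v) * χ j v := by
      linear_combination h8
    exact mul_left_cancel₀ (mul_pos (mul_pos pj' pi) hπ).ne' h9

/-- The product of the characters is trivial. -/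
theorem prod_one (g : Geo I C) (a : Act I C T) {A : E} (hA : OU C A)
    (hA1 : 0 < I (fun _ => A)) {c : Fin n → E} (hc : ∀ i, c i ∈ C)
    (hc1 : ∀ i, 0 < I (update (fun _ => A) i (c i)))
    {χ : Fin n → Λ → ℝ} (hχ : ∀ i v, T v (c i) = χ i v • c i) (hχ0 : ∀ i v, 0 < χ i v)
    (hne : ∀ i j, i ≠ j → χ i ≠ χ j) (v : Λ) : ∏ i, χ i v = 1 := by
  have h1 := int_pos g a hA hA1 hc hc1 hχ hχ0 hne Finset.univ
  rw [Finset.piecewise_univ] at h1
  have h2 := a.inv v c
  have h3 : (fun k => T v (c k)) = fun k => χ k v • c k := funext fun k => hχ k v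
  rw [h3, I.map_smul_univ, smul_eq_mul] at h2
  exact mul_right_cancel₀ h1.ne' (by rw [h2, one_mul])

end Run7.h334.KSR
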