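import Mathlib

set_option autoImplicit false

open Filter Topology

namespace Run7.h334.KSR

/-- **Simultaneous approximation.** -/
lemma dirichlet {r : ℕ} (x : Fin r → ℝ) (hx : x ≠ 0) {δ : ℝ} (hδ : 0 < δ) :
    ∃ (k : ℕ) (v : Fin r → ℤ), 1 ≤ k ∧ v ≠ 0 ∧ ∀ i, |(v i : ℝ) - k * x i| < δ := by
  obtain ⟨i0, hi0⟩ := Function.ne_iff.1 hx
  have hi0' : 0 < |x i0| := abs_pos.2 hi0
  let y : ℕ → Fin r → ℝ := fun k i => Int.fract ((k : ℝ) * x i)
  have hcomp : IsCompact (Set.Icc (0 : Fin r → ℝ) 1) := isCompact_Icc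
  obtain ⟨z, -, ψ, hψ, hlim⟩ := hcomp.tendsto_subseq (x := y)
    (fun k => ⟨fun i => Int.fract_nonneg _, fun i => (Int.fract_lt_one _).le⟩)
  obtain ⟨N, hN⟩ := Metric.cauchySeq_iff.1 hlim.cauchySeq δ hδ
  obtain ⟨K, hK⟩ := exists_nat_gt (δ / |x i0|)
  have hKpos : 0 < K := by
    have : (0 : ℝ) < K := (by positivity : (0 : ℝ) ≤ δ / |x i0|).trans_lt hK
    exact_mod_cast this
  obtain ⟨b, hb⟩ : ∃ b : ℕ, b = ψ N + K + N := ⟨_, rfl⟩
  have hbN : N ≤ b := by omega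
  have hψb : ψ N + K ≤ ψ b := by
    have := hψ.id_le b
    simp only [id] at this
    omega
  have hd := hN b hbN N le_rfl
  obtain ⟨k, hk⟩ : ∃ k : ℕ, k = ψ b - ψ N := ⟨_, rfl⟩
  have hkK : K ≤ k := by omega
  have hkc : (k : ℝ) = (ψ b : ℝ) - ψ N := by
    rw [hk, Nat.cast_sub (by omega)]
  have hclose : ∀ i, |((⌊(ψ b : ℝ) * x i⌋ - ⌊(ψ N : ℝ) * x i⌋ : ℤ) : ℝ) - k * x i| < δ := by
    intro i
    have h1 := (dist_pi_lt_iff hδ).1 hd i
    rw [Real.dist_eq] at h1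
    have h2 : ((⌊(ψ b : ℝ) * x i⌋ - ⌊(ψ N : ℝ) * x i⌋ : ℤ) : ℝ) - k * x i
        = -((y ∘ ψ) b i - (y ∘ ψ) N i) := by
      show _ = -(Int.fract ((ψ b : ℝ) * x i) - Int.fract ((ψ N : ℝ) * x i))
      rw [Int.fract, Int.fract, hkc]
      push_cast
      ring
    rw [h2, abs_neg]
    exact h1
  refine ⟨k, fun i => ⌊(ψ b : ℝ) * x i⌋ - ⌊(ψ N : ℝ) * x i⌋, by omega, ?_, hclose⟩
  intro h0
  have h1 := hclose i0
  have h2 : (⌊(ψ b : ℝ) * x i0⌋ - ⌊(ψ N : ℝ) * x i0⌋ : ℤ) = 0 := congrFun h0 i0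
  rw [h2, Int.cast_zero, zero_sub, abs_neg, abs_mul, Nat.abs_cast] at h1
  have h3 : δ < K * |x i0| := (div_lt_iff₀ hi0').1 hK
  have h4 : (K : ℝ) * |x i0| ≤ k * |x i0| := by
    refine mul_le_mul_of_nonneg_right ?_ hi0'.le
    exact_mod_cast hkK
  linarith

variable {r n : ℕ}

/-- The logarithms of the characters. -/
noncomputable def tau (χ : Fin n → (Fin r → ℤ) → ℝ) : (Fin r → ℝ) →ₗ[ℝ] (Fin n → ℝ) :=
  LinearMap.pi fun i => ∑ k, (Real.log (χ i (Pi.single k 1))) • LinearMap.proj k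

lemma tau_apply (χ : Fin n → (Fin r → ℤ) → ℝ) (x : Fin r → ℝ) (i : Fin n) :
    tau χ x i = ∑ k, Real.log (χ i (Pi.single k 1)) * x k := by
  simp [tau]

lemma tau_int (χ : Fin n → (Fin r → ℤ) → ℝ) (h0 : ∀ i v, 0 < χ i v)
    (hadd : ∀ i v w, χ i (v + w) = χ i v * χ i w) (v : Fin r → ℤ) (i : Fin n) :
    tau χ (fun k => (v k : ℝ)) i = Real.log (χ i v) := by
  let L : (Fin r → ℤ) →+ ℝ :=
    { toFun := fun v => Real.log (χ i v)
      map_zero' := by
        have h1 := hadd i 0 0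
        rw [add_zero] at h1
        have h2 : χ i 0 = 1 := by
          have := h0 i 0
          field_simp at h1
          linarith
        rw [h2, Real.log_one]
      map_add' := fun v w => by
        rw [hadd, Real.log_mul (h0 i v).ne' (h0 i w).ne'] }
  have h1 : L v = ∑ k, L (Pi.single k (v k)) := by
    rw [← map_sum, Finset.univ_sum_single]
  have h2 : ∀ k, L (Pi.single k (v k)) = (v k : ℝ) * L (Pi.single k 1) := by
    intro k
    have h3 : (Pi.single k (v k) : Fin r → ℤ) = v k • Pi.single k 1 := by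
      rw [← Pi.single_smul, smul_eq_mul, mul_one]
    rw [h3, map_zsmul, zsmul_eq_mul]
  rw [tau_apply]
  show _ = L v
  rw [h1]
  refine Finset.sum_congr rfl fun k _ => ?_
  rw [h2, mul_comm]
  rfl

lemma tau_near (χ : Fin n → (Fin r → ℤ) → ℝ) : ∃ M : ℝ, 0 < M ∧ ∀ (y : Fin r → ℝ) (δ : ℝ),
    (∀ k, |y k| < δ) → 0 < δ → ∀ i, |tau χ y i| ≤ M * δ := by
  refine ⟨∑ i, ∑ k, |Real.log (χ i (Pi.single k 1))| + 1, by positivity, ?_⟩
  intro y δ hy hδ i
  rw [tau_apply]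
  have h1 : |∑ k, Real.log (χ i (Pi.single k 1)) * y k|
      ≤ ∑ k, |Real.log (χ i (Pi.single k 1))| * δ := by
    refine (Finset.abs_sum_le_sum_abs _ _).trans (Finset.sum_le_sum fun k _ => ?_)
    rw [abs_mul]
    exact mul_le_mul_of_nonneg_left (hy k).le (abs_nonneg _)
  refine h1.trans ?_
  rw [← Finset.sum_mul]
  refine mul_le_mul_of_nonneg_right ?_ hδ.le
  have h2 : ∑ k, |Real.log (χ i (Pi.single k 1))|
      ≤ ∑ i, ∑ k, |Real.log (χ i (Pi.single k 1))| :=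
    Finset.single_le_sum (f := fun i => ∑ k, |Real.log (χ i (Pi.single k 1))|)
      (fun i _ => Finset.sum_nonneg fun k _ => abs_nonneg _) (Finset.mem_univ i)
  linarith

/-- An integral vector near a multiple of a real one. -/
lemma near (χ : Fin n → (Fin r → ℤ) → ℝ) (h0 : ∀ i v, 0 < χ i v)
    (hadd : ∀ i v w, χ i (v + w) = χ i v * χ i w) {x : Fin r → ℝ} (hx : x ≠ 0) {ε : ℝ}
    (hε : 0 < ε) : ∃ (k : ℕ) (v : Fin r → ℤ), 1 ≤ k ∧ v ≠ 0 ∧
      ∀ i, |Real.log (χ i v) - k * tau χ x i| ≤ ε := by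
  obtain ⟨M, hM, hb⟩ := tau_near χ
  obtain ⟨k, v, hk, hv, hc⟩ := dirichlet x hx (div_pos hε hM)
  refine ⟨k, v, hk, hv, fun i => ?_⟩
  have h1 := hb (fun j => (v j : ℝ) - k * x j) (ε / M) hc (div_pos hε hM) i
  have h2 : (fun j => (v j : ℝ) - k * x j) = (fun j => (v j : ℝ)) - (k : ℝ) • x := by
    funext j
    simp
  rw [h2, map_sub, map_smul, Pi.sub_apply, Pi.smul_apply, tau_int χ h0 hadd, smul_eq_mul,
    mul_div_cancel₀ _ hM.ne'] at h1
  exact h1

/-- A positive coordinate in every real direction. -/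
lemma exists_pos (χ : Fin n → (Fin r → ℤ) → ℝ) (h0 : ∀ i v, 0 < χ i v)
    (hadd : ∀ i v w, χ i (v + w) = χ i v * χ i w) {η : ℝ} (hη : 0 < η)
    (hlow : ∀ v : Fin r → ℤ, v ≠ 0 → ∃ i, η ≤ Real.log (χ i v)) {x : Fin r → ℝ} (hx : x ≠ 0) :
    ∃ i, 0 < tau χ x i := by
  by_contra hcon
  push Not at hcon
  obtain ⟨k, v, hk, hv, hc⟩ := near χ h0 hadd hx (half_pos hη)
  obtain ⟨i, hi⟩ := hlow v hv
  have h1 := (abs_le.1 (hc i)).2
  have h2 : (k : ℝ) * tau χ x i ≤ 0 := mul_nonpos_of_nonneg_of_nonpos (Nat.cast_nonneg k) (hcon i)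
  linarith

lemma tau_inj (χ : Fin n → (Fin r → ℤ) → ℝ) (h0 : ∀ i v, 0 < χ i v)
    (hadd : ∀ i v w, χ i (v + w) = χ i v * χ i w) {η : ℝ} (hη : 0 < η)
    (hlow : ∀ v : Fin r → ℤ, v ≠ 0 → ∃ i, η ≤ Real.log (χ i v)) :
    Function.Injective (tau χ) := by
  rw [← LinearMap.ker_eq_bot, LinearMap.ker_eq_bot']
  intro x hx
  by_contra hne
  obtain ⟨i, hi⟩ := exists_pos χ h0 hadd hη hlow hne
  rw [hx] at hi
  exact lt_irrefl _ hi

/-- There are more characters than the rank of the group. -/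
lemma rank_lt (χ : Fin n → (Fin r → ℤ) → ℝ) (h0 : ∀ i v, 0 < χ i v)
    (hadd : ∀ i v w, χ i (v + w) = χ i v * χ i w) {η : ℝ} (hη : 0 < η)
    (hlow : ∀ v : Fin r → ℤ, v ≠ 0 → ∃ i, η ≤ Real.log (χ i v)) (hr : 0 < r) : r < n := by
  by_contra hcon
  push Not at hcon
  have hinj := tau_inj χ h0 hadd hη hlow
  have h1 : r ≤ n := by
    have := LinearMap.finrank_le_finrank_of_injective hinj
    simpa using this
  have hrn : r = n := le_antisymm h1 hcon
  have hsurj : Function.Surjective (tau χ) := by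
    rw [← LinearMap.injective_iff_surjective_of_finrank_eq_finrank (by simp [hrn])]
    exact hinj
  obtain ⟨x, hx⟩ := hsurj (fun _ => -1)
  have hx0 : x ≠ 0 := by
    intro h
    rw [h, map_zero] at hx
    have h2 := congrFun hx ⟨0, by omega⟩
    norm_num at h2
  obtain ⟨i, hi⟩ := exists_pos χ h0 hadd hη hlow hx0
  rw [hx] at hi
  norm_num at hi

/-- The contracting elements. -/
lemma exists_contract (χ : Fin (r + 1) → (Fin r → ℤ) → ℝ) (h0 : ∀ i v, 0 < χ i v)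
    (hadd : ∀ i v w, χ i (v + w) = χ i v * χ i w) {η : ℝ} (hη : 0 < η)
    (hlow : ∀ v : Fin r → ℤ, v ≠ 0 → ∃ i, η ≤ Real.log (χ i v)) (hr : 0 < r)
    (hprod : ∀ v, ∏ i, χ i v = 1) (i : Fin (r + 1)) :
    ∃ v : Fin r → ℤ, v ≠ 0 ∧ ∀ j, j ≠ i → χ j v < 1 := by
  classical
  have hinj := tau_inj χ h0 hadd hη hlow
  let s : (Fin (r + 1) → ℝ) →ₗ[ℝ] ℝ := ∑ j, LinearMap.proj j
  have hs : ∀ y, s y = ∑ j, y j := by
    intro y
    simp [s]
  have hsne : LinearMap.range s = ⊤ := by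
    rw [LinearMap.range_eq_top]
    intro t
    refine ⟨Pi.single 0 t, ?_⟩
    rw [hs, Finset.sum_pi_single']
    simp
  have hle : LinearMap.range (tau χ) ≤ LinearMap.ker s := by
    rintro _ ⟨x, rfl⟩
    rw [LinearMap.mem_ker, hs]
    have h1 : ∀ k : Fin r, ∑ j, Real.log (χ j (Pi.single k 1)) = 0 := by
      intro k
      rw [← Real.log_prod (fun j _ => (h0 j _).ne'), hprod, Real.log_one]
    have h2 : ∑ j, tau χ x j = ∑ k, (∑ j, Real.log (χ j (Pi.single k 1))) * x k := by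
      simp_rw [tau_apply]
      rw [Finset.sum_comm]
      exact Finset.sum_congr rfl fun k _ => (Finset.sum_mul _ _ _).symm
    rw [h2]
    exact Finset.sum_eq_zero fun k _ => by rw [h1, zero_mul]
  have hfr : Module.finrank ℝ (LinearMap.ker s) = r := by
    have h1 := LinearMap.finrank_range_add_finrank_ker s
    rw [hsne, finrank_top, Module.finrank_self, Module.finrank_fin_fun] at h1
    omega
  have hfr2 : Module.finrank ℝ (LinearMap.range (tau χ)) = r := by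
    rw [LinearMap.finrank_range_of_inj hinj, Module.finrank_fin_fun]
  have heq : LinearMap.range (tau χ) = LinearMap.ker s :=
    Submodule.eq_of_le_of_finrank_le hle (by rw [hfr, hfr2])
  obtain ⟨y, hy⟩ : ∃ y : Fin (r + 1) → ℝ, y = fun j => if j = i then (r : ℝ) else -1 := ⟨_, rfl⟩
  have hyk : y ∈ LinearMap.ker s := by
    rw [LinearMap.mem_ker, hs, ← Finset.add_sum_erase _ _ (Finset.mem_univ i), hy]
    have h1 : ∑ j ∈ Finset.univ.erase i, (if j = i then (r : ℝ) else -1)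
        = ∑ j ∈ Finset.univ.erase i, (-1 : ℝ) :=
      Finset.sum_congr rfl fun j hj => by rw [if_neg (Finset.ne_of_mem_erase hj)]
    rw [h1]
    simp
  rw [← heq] at hyk
  obtain ⟨x, hx⟩ := hyk
  have hx0 : x ≠ 0 := by
    intro h
    rw [h, map_zero] at hx
    have h2 := congrFun hx i
    rw [hy] at h2
    simp only [Pi.zero_apply, if_true] at h2
    have : (0 : ℝ) < r := by exact_mod_cast hr
    linarith
  obtain ⟨k, v, hk, hv, hc⟩ := near χ h0 hadd hx0 (by norm_num : (0 : ℝ) < 1 / 2)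
  refine ⟨v, hv, fun j hj => ?_⟩
  have h1 := (abs_le.1 (hc j)).2
  rw [hx, hy] at h1
  simp only [if_neg hj] at h1
  have h2 : (1 : ℝ) ≤ k := by exact_mod_cast hk
  have h3 : Real.log (χ j v) < 0 := by linarith
  by_contra h4
  push Not at h4
  have := Real.log_nonneg h4
  linarith

end Run7.h334.KSR
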