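import Mathlib
import Pool.Agent.Q8.KS.Setting

/-!
Projective varieties with an action of `ℤ^r` by automorphisms.
-/

set_option autoImplicit false

open Filter Topology
open Pool.Agent.Q8.KS

namespace Run7.h334.KSR

variable {G : Type} [Group G]

/-- The intersection form is symmetric. -/
def IntSymm (V : Variety G) : Prop :=
  ∀ (σ : Equiv.Perm (Fin (V.dimPred + 1))) (D : Fin (V.dimPred + 1) → V.NS),
    V.int (D ∘ σ) = V.int D

/-- The intersection numbers of nef classes are not negative (Kleiman). -/
def IntNonneg (V : Variety G) : Prop :=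
  ∀ D : Fin (V.dimPred + 1) → V.NS, (∀ i, D i ∈ V.Nef) → 0 ≤ V.int D

/-- The Hodge index theorem (Khovanskii-Teissier): `(D² ⋅ N) (A² ⋅ N) ≤ (D ⋅ A ⋅ N)²` for `A` and
`N = (N₁, …, N_(m-2))` nef and any `D`. -/
def HodgeIndex (V : Variety G) : Prop :=
  ∀ i j, i ≠ j → ∀ N : Fin (V.dimPred + 1) → V.NS, (∀ k, N k ∈ V.Nef) → ∀ A ∈ V.Nef, ∀ D : V.NS,
    V.int (Function.update (Function.update N i D) j D)
        * V.int (Function.update (Function.update N i A) j A)
      ≤ V.int (Function.update (Function.update N i D) j A) ^ 2

/-- `L` is a lattice: it has a `ℤ`-basis which is an `ℝ`-basis of `N¹(V) ⊗ ℝ`. -/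
def IsClassLattice (V : Variety G) (L : Submodule ℤ V.NS) : Prop :=
  ∃ (ρ : ℕ) (b : Module.Basis (Fin ρ) ℝ V.NS), L = Submodule.span ℤ (Set.range b)

/-- The height of a class in `Eff` is bounded below outside of a proper closed subset. -/
def EffHeight (V : Variety G) [TopologicalSpace V.Pt] (Eff : Set V.Pic) : Prop :=
  ∀ D ∈ Eff, ∀ u : V.Pt → ℝ, V.IsHeight D u →
    ∃ Z : Set V.Pt, IsClosed Z ∧ Z ≠ Set.univ ∧ ∃ c : ℝ, ∀ x, x ∉ Z → c ≤ u x

/-- Kodaira's lemma: if `L` is nef, `L^m > 0` and `A` is ample, then `L - t A` is effective for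
some `t > 0`. -/
def KodairaLemma (V : Variety G) (Eff : Set V.Pic) : Prop :=
  ∀ L A : V.Pic, V.cls L ∈ V.Nef → 0 < V.int (fun _ => V.cls L) → V.IsAmple A →
    ∃ t : ℝ, 0 < t ∧ L - t • A ∈ Eff

/-- Northcott's theorem: there are finitely many points of bounded degree over `K` and bounded
height for an ample class. -/
def NorthcottProperty (V : Variety G) : Prop :=
  ∀ (A : V.Pic) (u : V.Pt → ℝ), V.IsAmple A → V.IsHeight A u →
    ∀ (e : ℕ) (C : ℝ), {x : V.Pt | (MulAction.orbit G x).ncard ≤ e ∧ u x ≤ C}.Finite

/-- A projective variety `V` of positive dimension over a number field `K` with absolute Galois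
group `G`: the data of `Variety G` (points over the algebraic closure, classes, intersection
numbers, nef cone, heights) with the Zariski topology on the points, the integral classes, the
classes of the effective divisors and further classical facts. -/
structure ProjVariety (G : Type) [Group G] extends Variety G where
  /-- the Zariski topology on the points -/
  [zariski : TopologicalSpace Pt]
  [noetherian : TopologicalSpace.NoetherianSpace Pt]
  [t1 : T1Space Pt]
  /-- there are infinitely many points -/
  [infinite : Infinite Pt]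
  int_symm : IntSymm toVariety
  int_nonneg : IntNonneg toVariety
  hodge : HodgeIndex toVariety
  /-- the lattice of the integral classes (theorem of the base) -/
  lattice : Submodule ℤ NS
  lattice_basis : IsClassLattice toVariety lattice
  /-- the classes of effective divisors (with real coefficients) -/
  Eff : Set Pic
  eff_height : EffHeight toVariety Eff
  kodaira : KodairaLemma toVariety Eff
  /-- a point has finitely many conjugates over `K` -/
  orbit_finite : ∀ x : Pt, (MulAction.orbit G x).Finite
  northcott : NorthcottProperty toVariety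

attribute [instance] ProjVariety.zariski ProjVariety.noetherian ProjVariety.t1
  ProjVariety.infinite

/-- `f` is the identity on points and classes. -/
def IsIdentity {V : Variety G} (f : Morphism V V) : Prop :=
  (∀ x, f.pt x = x) ∧ ∀ D, f.ns D = D

/-- `f` is the composite `g ∘ h` on points and classes. -/
def IsComposite {V : Variety G} (f g h : Morphism V V) : Prop :=
  (∀ x, f.pt x = g.pt (h.pt x)) ∧ ∀ D, f.ns D = h.ns (g.ns D)

/-- The pullback by `f` preserves intersection numbers, as it does for an automorphism. -/
def PreservesInt {V : Variety G} (f : Morphism V V) : Prop :=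
  ∀ D : Fin (V.dimPred + 1) → V.NS, V.int (fun k => f.ns (D k)) = V.int D

/-- The pullback by `f` of an integral class is integral. -/
def PreservesLattice {V : Variety G} (L : Submodule ℤ V.NS) (f : Morphism V V) : Prop :=
  ∀ D ∈ L, f.ns D ∈ L

/-- An action of the group `ℤ^r` on `V` by automorphisms over `K`. -/
structure LatticeAction (V : ProjVariety G) (r : ℕ) where
  /-- the automorphism of `v` -/
  f : (Fin r → ℤ) → Morphism V.toVariety V.toVariety
  identity : IsIdentity (f 0)
  composite : ∀ v w, IsComposite (f (v + w)) (f v) (f w)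
  /-- morphisms are continuous in the Zariski topology -/
  continuous_pt : ∀ v, Continuous (f v).pt
  lattice : ∀ v, PreservesLattice V.lattice (f v)
  int : ∀ v, PreservesInt (f v)

namespace LatticeAction

variable {V : ProjVariety G} {r : ℕ} (Φ : LatticeAction V r)

lemma pt_zero (x : V.Pt) : (Φ.f 0).pt x = x := Φ.identity.1 x

lemma pt_add (v w : Fin r → ℤ) (x : V.Pt) : (Φ.f (v + w)).pt x = (Φ.f v).pt ((Φ.f w).pt x) :=
  (Φ.composite v w).1 x

lemma ns_zero (D : V.NS) : (Φ.f 0).ns D = D := Φ.identity.2 D

lemma ns_add (v w : Fin r → ℤ) (D : V.NS) :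
    (Φ.f (v + w)).ns D = (Φ.f v).ns ((Φ.f w).ns D) := by
  rw [add_comm]
  exact (Φ.composite w v).2 D

lemma ns_lattice (v : Fin r → ℤ) (D : V.NS) (hD : D ∈ V.lattice) : (Φ.f v).ns D ∈ V.lattice :=
  Φ.lattice v D hD

lemma int_ns (v : Fin r → ℤ) (D : Fin (V.dimPred + 1) → V.NS) :
    V.int (fun k => (Φ.f v).ns (D k)) = V.int D :=
  Φ.int v D

end LatticeAction

end Run7.h334.KSR
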