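import Mathlib
import Pool.Agent.Q8.KS.Share2
import Pool.Agent.Run7.h334.KSR.Index
import Pool.Agent.Run7.h334.KSR.Lattice
import Pool.Agent.Run7.h334.KSR.Setting

/-!
The characters of a group of automorphisms of maximal rank.
-/

set_option autoImplicit false

open Filter Topology
open Pool.Agent.Q8.KS

namespace Run7.h334.KSR

variable {G : Type} [Group G]

section

variable (V : ProjVariety G)

lemma geo : Geo V.int V.Nef := ⟨V.nef_cone, V.int_symm, V.int_nonneg, V.hodge⟩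

lemma act {r : ℕ} (Φ : LatticeAction V r) : Act V.int V.Nef (fun v => (Φ.f v).ns) :=
  ⟨Φ.ns_zero, Φ.ns_add, fun v => (Φ.f v).nef, Φ.int_ns⟩

lemma ou {A : V.NS} (hA : A ∈ interior V.Nef) : OU V.Nef A := by
  refine ⟨interior_subset hA, fun x => ?_⟩
  obtain ⟨M, hM, h⟩ := unit_le V.nef_cone hA
  refine ⟨M * ‖x‖ + 1, by positivity, ?_⟩
  have h1 := V.nef_cone.add _ (h x) _ (interior_subset hA)
  have h2 : (M * ‖x‖) • A - x + A = (M * ‖x‖ + 1) • A - x := by
    rw [add_smul, one_smul]; abel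
  rwa [h2] at h1

lemma deg_eq (A D : V.NS) (i : Fin (V.dimPred + 1)) :
    V.deg A D = V.int (Function.update (fun _ => A) i D) := by
  have h1 : V.deg A D = V.int (Fin.cons D (fun _ => A)) := rfl
  rw [h1]
  have h2 : (Fin.cons D (fun _ => A) : Fin (V.dimPred + 1) → V.NS) ∘ Equiv.swap 0 i
      = Function.update (fun _ => A) i D := by
    funext k
    by_cases hk : k = i
    · subst hk
      rw [Function.comp_apply, Equiv.swap_apply_right, Function.update_self]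
      rfl
    · rw [Function.update_of_ne hk, Function.comp_apply]
      have h3 : Equiv.swap 0 i k ≠ 0 := by
        intro h
        apply hk
        have := congrArg (Equiv.swap 0 i) h
        rwa [Equiv.swap_apply_self, Equiv.swap_apply_left] at this
      obtain ⟨j, hj⟩ := Fin.exists_succ_eq_of_ne_zero h3
      rw [← hj]
      rfl
  rw [← h2, V.int_symm]

lemma deg_self (A : V.NS) : V.deg A A = V.int (fun _ => A) := by
  rw [deg_eq V A A 0]
  congr 1
  rw [Function.update_eq_self_iff]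

end

/-- The characters of the common nef eigenvectors. -/
def chars {V : ProjVariety G} {r : ℕ} (Φ : LatticeAction V r) : Set ((Fin r → ℤ) → ℝ) :=
  {χ | ∃ c ∈ V.Nef, c ≠ 0 ∧ ∀ v, 0 < χ v ∧ (Φ.f v).ns c = χ v • c}

variable {V : ProjVariety G} {r : ℕ} (Φ : LatticeAction V r) {A : V.Pic}

/-- A first dynamical degree is the value of a character. -/
lemma exists_char (hA : V.IsAmple A) (v : Fin r → ℤ) {d : ℝ} (hd : 0 < d)
    (hdyn : IsDynamicalDegree (Φ.f v) A d) : ∃ χ ∈ chars Φ, χ v = d := by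
  have hl : ∀ x ∈ V.Nef, x ≠ 0 → 0 < V.deg (V.cls A) x :=
    fun x hx h0 => V.int_pos _ hA x hx h0
  obtain ⟨w, hw, hw0, hTw⟩ := Pool.Agent.Q8.KS.perron V.nef_cone (V.deg (V.cls A)) hl hA
    (Φ.f v).ns (Φ.f v).nef hd hdyn
  let F : Set V.NS := {x | x ∈ V.Nef ∧ (Φ.f v).ns x = d • x}
  have hcomm : ∀ a b x, (Φ.f a).ns ((Φ.f b).ns x) = (Φ.f b).ns ((Φ.f a).ns x) := by
    intro a b x
    rw [← Φ.ns_add, ← Φ.ns_add, add_comm]
  have hF : IsCone F := by
    refine ⟨?_, ⟨V.nef_cone.zero, by simp⟩, ?_, ?_⟩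
    · exact V.nef_cone.closed.inter
        (isClosed_eq (Φ.f v).ns.continuous_of_finiteDimensional (continuous_const_smul d))
    · rintro x ⟨hx, hx'⟩ y ⟨hy, hy'⟩
      exact ⟨V.nef_cone.add _ hx _ hy, by rw [map_add, hx', hy', smul_add]⟩
    · rintro a ha x ⟨hx, hx'⟩
      exact ⟨V.nef_cone.smul a ha _ hx, by rw [map_smul, hx', smul_comm]⟩
  obtain ⟨c, hcF, hc0, hc⟩ := common (fun a => (Φ.f a).ns) (fun a => (Φ.f (-a)).ns) hcomm
    (fun a x => by
      show (Φ.f (-a)).ns ((Φ.f a).ns x) = x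
      rw [← Φ.ns_add, neg_add_cancel, Φ.ns_zero])
    hF (V.deg (V.cls A)) (fun x hx => hl x hx.1) ⟨w, ⟨hw, hTw⟩, hw0⟩
    (fun a x hx => ⟨(Φ.f a).nef x hx.1, by rw [hcomm, hx.2, map_smul]⟩)
  choose χ hχ0 hχ using hc
  refine ⟨χ, ⟨c, hcF.1, hc0, fun a => ⟨hχ0 a, hχ a⟩⟩, ?_⟩
  have h1 : χ v • c = d • c := by
    rw [← hχ v]
    exact hcF.2
  exact smul_left_injective ℝ hc0 h1

lemma chars_add {χ : (Fin r → ℤ) → ℝ} (hχ : χ ∈ chars Φ) (v w : Fin r → ℤ) :
    χ (v + w) = χ v * χ w := by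
  obtain ⟨c, -, hc0, hc⟩ := hχ
  have h1 : χ (v + w) • c = (χ v * χ w) • c := by
    rw [← (hc (v + w)).2, Φ.ns_add, (hc w).2, map_smul, (hc v).2, smul_smul, mul_comm]
  exact smul_left_injective ℝ hc0 h1

lemma chars_pos {χ : (Fin r → ℤ) → ℝ} (hχ : χ ∈ chars Φ) (v : Fin r → ℤ) : 0 < χ v := by
  obtain ⟨c, -, hc0, hc⟩ := hχ
  exact (hc v).1

/-- The intersection number of the eigenvectors is positive, and the product of the characters is
trivial. -/
lemma chars_int (hA : V.IsAmple A) {χ : Fin (V.dimPred + 1) → (Fin r → ℤ) → ℝ}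
    (hinj : Function.Injective χ) {c : Fin (V.dimPred + 1) → V.NS} (hcN : ∀ i, c i ∈ V.Nef)
    (hc0 : ∀ i, c i ≠ 0) (hc : ∀ i v, 0 < χ i v ∧ (Φ.f v).ns (c i) = χ i v • c i) :
    0 < V.int c ∧ ∀ v, ∏ i, χ i v = 1 := by
  have hA0 : V.cls A ≠ 0 := by
    intro h0
    have h1 : -c 0 ∈ V.Nef := by
      obtain ⟨κ, -, h2⟩ := (ou V hA).2 (c 0)
      rwa [h0, smul_zero, zero_sub] at h2
    have h2 := V.int_pos _ hA _ (hcN 0) (hc0 0)
    have h3 := V.int_pos _ hA _ h1 (neg_ne_zero.2 (hc0 0))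
    have h4 : V.deg (V.cls A) (-c 0) = - V.deg (V.cls A) (c 0) := map_neg _ _
    have h5 : 0 < V.deg (V.cls A) (-c 0) := h3
    have h6 : 0 < V.deg (V.cls A) (c 0) := h2
    linarith
  have h1 : 0 < V.int (fun _ => V.cls A) := by
    rw [← deg_self]
    exact V.int_pos _ hA _ (interior_subset hA) hA0
  have h2 : ∀ i, 0 < V.int (Function.update (fun _ => V.cls A) i (c i)) := by
    intro i
    rw [← deg_eq]
    exact V.int_pos _ hA _ (hcN i) (hc0 i)
  have hne : ∀ i j, i ≠ j → χ i ≠ χ j := fun i j h h' => h (hinj h')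
  constructor
  · have := int_pos (geo V) (act V Φ) (ou V hA) h1 hcN h2 (fun i v => (hc i v).2)
      (fun i v => (hc i v).1) hne Finset.univ
    rwa [Finset.piecewise_univ] at this
  · exact prod_one (geo V) (act V Φ) (ou V hA) h1 hcN h2 (fun i v => (hc i v).2)
      (fun i v => (hc i v).1) hne

/-- There are at most `dim V` characters. -/
lemma chars_card (hA : V.IsAmple A) (t : Finset ((Fin r → ℤ) → ℝ))
    (ht : ↑t ⊆ chars Φ) : t.card ≤ V.dimPred + 1 := by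
  by_contra hcon
  push Not at hcon
  obtain ⟨t', ht', hcard⟩ := Finset.exists_subset_card_eq (show V.dimPred + 1 + 1 ≤ t.card by omega)
  let e := (Finset.equivFinOfCardEq hcard).symm
  have hmem : ∀ i, (e i).1 ∈ chars Φ := fun i => ht (ht' (e i).2)
  choose c hcN hc0 hc using hmem
  have key : ∀ (p : Fin (V.dimPred + 1 + 1)) (v : Fin r → ℤ), ∏ i, (e i).1 v = (e p).1 v := by
    intro p v
    have h1 := (chars_int Φ hA (χ := fun i => (e (p.succAbove i)).1)
      (fun i j h => p.succAbove_right_injective (e.injective (Subtype.ext h)))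
      (c := fun i => c (p.succAbove i)) (fun i => hcN _) (fun i => hc0 _) (fun i v => hc _ v)).2 v
    rw [Fin.prod_univ_succAbove _ p, h1, mul_one]
  have h1 : (e 0).1 = (e (Fin.last _)).1 := by
    funext v
    rw [← key 0 v, ← key (Fin.last _) v]
  have h2 : (0 : Fin (V.dimPred + 1 + 1)) = Fin.last _ := e.injective (Subtype.ext h1)
  have h3 := congrArg Fin.val h2
  simp at h3

/-- **The structure of the classes.** -/
theorem structure_classes (hA : V.IsAmple A) (hr : 0 < V.dimPred)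
    (Φ : LatticeAction V V.dimPred) {ε : ℝ} (hε : 0 < ε)
    (hpos : ∀ v : Fin V.dimPred → ℤ, v ≠ 0 → ∃ d, 1 + ε ≤ d ∧ IsDynamicalDegree (Φ.f v) A d) :
    ∃ (χ : Fin (V.dimPred + 1) → (Fin V.dimPred → ℤ) → ℝ) (c : Fin (V.dimPred + 1) → V.NS)
      (v₀ : Fin (V.dimPred + 1) → Fin V.dimPred → ℤ),
      (∀ i, c i ∈ V.Nef) ∧ (∀ i v, 0 < χ i v) ∧ (∀ i v, (Φ.f v).ns (c i) = χ i v • c i) ∧
      0 < V.int c ∧ (∀ v, v ≠ 0 → ∀ d, IsDynamicalDegree (Φ.f v) A d → ∃ i, χ i v = d) ∧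
      (∀ i j, j ≠ i → χ j (v₀ i) < 1) ∧ (∀ i, 1 < χ i (v₀ i)) ∧
      ∀ i, IsDynamicalDegree (Φ.f (v₀ i)) A (χ i (v₀ i)) := by
  classical
  have hcard := chars_card Φ hA
  have hfin : (chars Φ).Finite := by
    by_contra hinf
    obtain ⟨t, ht, hc⟩ := Set.Infinite.exists_subset_card_eq hinf (V.dimPred + 1 + 1)
    have := hcard t ht
    omega
  have hval : ∀ v, v ≠ 0 → ∀ d, IsDynamicalDegree (Φ.f v) A d → 1 + ε ≤ d ∧
      ∃ χ ∈ chars Φ, χ v = d := by
    intro v hv d hd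
    obtain ⟨d', hd', hdyn⟩ := hpos v hv
    have h1 : d = d' := tendsto_nhds_unique hd hdyn
    rw [h1]
    exact ⟨hd', exists_char Φ hA v (by linarith) hdyn⟩
  -- enumeration
  obtain ⟨k, hk⟩ : ∃ k, k = hfin.toFinset.card := ⟨_, rfl⟩
  let e0 := (Finset.equivFinOfCardEq hk.symm).symm
  have hη : 0 < Real.log (1 + ε) := Real.log_pos (by linarith)
  have hrk : V.dimPred < k := by
    refine rank_lt (fun i => (e0 i).1) (fun i v => chars_pos Φ (hfin.mem_toFinset.1 (e0 i).2) v)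
      (fun i => chars_add Φ (hfin.mem_toFinset.1 (e0 i).2)) hη (fun v hv => ?_) hr
    obtain ⟨d, hd, hdyn⟩ := hpos v hv
    obtain ⟨-, χ, hχ, hχv⟩ := hval v hv d hdyn
    refine ⟨e0.symm ⟨χ, hfin.mem_toFinset.2 hχ⟩, ?_⟩
    rw [Equiv.apply_symm_apply]
    show _ ≤ Real.log (χ v)
    rw [hχv]
    exact Real.log_le_log (by linarith) hd
  have hk2 : hfin.toFinset.card = V.dimPred + 1 := by
    have := hcard hfin.toFinset (by rw [hfin.coe_toFinset])
    omega
  let e := (Finset.equivFinOfCardEq hk2).symm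
  obtain ⟨χ, hχdef⟩ : ∃ χ : Fin (V.dimPred + 1) → (Fin V.dimPred → ℤ) → ℝ,
    χ = fun i => (e i).1 := ⟨_, rfl⟩
  have hχmem : ∀ i, χ i ∈ chars Φ := fun i => by
    rw [hχdef]
    exact hfin.mem_toFinset.1 (e i).2
  have hχsurj : ∀ ψ ∈ chars Φ, ∃ i, χ i = ψ := by
    intro ψ hψ
    refine ⟨e.symm ⟨ψ, hfin.mem_toFinset.2 hψ⟩, ?_⟩
    rw [hχdef]
    simp
  have hχinj : Function.Injective χ := by
    intro i j h
    rw [hχdef] at h
    exact e.injective (Subtype.ext h)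
  have hχmem' := hχmem
  choose c hcN hc0 hc using hχmem'
  obtain ⟨hint, hprod⟩ := chars_int Φ hA hχinj hcN hc0 hc
  have hval' : ∀ v, v ≠ 0 → ∀ d, IsDynamicalDegree (Φ.f v) A d → ∃ i, χ i v = d := by
    intro v hv d hd
    obtain ⟨-, ψ, hψ, hψv⟩ := hval v hv d hd
    obtain ⟨i, hi⟩ := hχsurj ψ hψ
    exact ⟨i, by rw [hi, hψv]⟩
  have hlow : ∀ v : Fin V.dimPred → ℤ, v ≠ 0 → ∃ i, Real.log (1 + ε) ≤ Real.log (χ i v) := by
    intro v hv
    obtain ⟨d, hd, hdyn⟩ := hpos v hv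
    obtain ⟨i, hi⟩ := hval' v hv d hdyn
    exact ⟨i, by rw [hi]; exact Real.log_le_log (by linarith) hd⟩
  have hcontr := exists_contract χ (fun i v => (hc i v).1) (fun i => chars_add Φ (hχmem i)) hη
    hlow hr hprod
  choose v₀ hv₀ hcontr using hcontr
  have hdyn0 : ∀ i, 1 < χ i (v₀ i) ∧ IsDynamicalDegree (Φ.f (v₀ i)) A (χ i (v₀ i)) := by
    intro i
    obtain ⟨d, hd, hdyn⟩ := hpos (v₀ i) (hv₀ i)
    obtain ⟨j, hj⟩ := hval' (v₀ i) (hv₀ i) d hdyn
    by_cases hji : j = i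
    · subst hji
      rw [hj]
      exact ⟨by linarith, hdyn⟩
    · have := hcontr i j hji
      linarith
  exact ⟨χ, c, v₀, hcN, fun i v => (hc i v).1, fun i v => (hc i v).2, hint, hval',
    hcontr, fun i => (hdyn0 i).1, fun i => (hdyn0 i).2⟩

end Run7.h334.KSR
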