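import Mathlib
import Pool.Agent.Q8.KS.Core

set_option autoImplicit false

open Filter Topology
open Pool.Agent.Q8.KS (gr gr_pos summable_half)

namespace Run7.h334.KSR

/-! ### Canonical heights -/

lemma sqrt_gr {ℓ : ℕ} {d : ℝ} (hd : 0 < d) (k : ℕ) :
    (d ^ k)⁻¹ * √(gr ℓ d k) = √(((k : ℝ) + 1) ^ ℓ * (d⁻¹) ^ k) := by
  have h7 : (d ^ k)⁻¹ = √(((d ^ k)⁻¹) ^ 2) := by
    rw [Real.sqrt_sq (by positivity)]
  rw [h7, ← Real.sqrt_mul (by positivity)]
  congr 1
  unfold gr
  rw [inv_pow d k]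
  field_simp

/-- The canonical height of a class with `g^* c = δ c`. -/
lemma can {X : Type} (g : X → X) (e hp : X → ℝ) {δ K B : ℝ} {ℓ : ℕ} (hδ : 1 < δ) (hK : 0 < K)
    (hB : 0 < B) (h1 : ∀ x, |e (g x) - δ * e x| ≤ K * √(hp x))
    (h2 : ∀ k x, hp (g^[k] x) ≤ B * gr ℓ δ k * hp x) :
    ∃ (h : X → ℝ) (C : ℝ), 0 < C ∧ (∀ x, |h x - e x| ≤ C * √(hp x)) ∧
      (∀ x, Tendsto (fun k => (δ ^ k)⁻¹ * e (g^[k] x)) atTop (𝓝 (h x))) ∧
      ∀ x, Tendsto (fun k => (δ ^ k)⁻¹ * √(hp (g^[k] x))) atTop (𝓝 0) := by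
  have hδ0 : 0 < δ := by linarith
  have hsum := summable_half ℓ hδ
  obtain ⟨a, ha⟩ : ∃ a : ℕ → ℝ, a = fun k : ℕ => √(((k : ℝ) + 1) ^ ℓ * (δ⁻¹) ^ k) := ⟨_, rfl⟩
  have ha0 : ∀ k, 0 ≤ a k := fun k => by rw [ha]; exact Real.sqrt_nonneg _
  have hsum' : Summable a := by rw [ha]; exact hsum
  have hsq : ∀ k x, (δ ^ k)⁻¹ * √(hp (g^[k] x)) ≤ √B * √(hp x) * a k := by
    intro k x
    have h3 := Real.sqrt_le_sqrt (h2 k x)
    have hg := gr_pos ℓ hδ0 k
    rw [Real.sqrt_mul (by positivity), Real.sqrt_mul hB.le] at h3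
    calc (δ ^ k)⁻¹ * √(hp (g^[k] x)) ≤ (δ ^ k)⁻¹ * (√B * √(gr ℓ δ k) * √(hp x)) :=
          mul_le_mul_of_nonneg_left h3 (by positivity)
      _ = √B * √(hp x) * ((δ ^ k)⁻¹ * √(gr ℓ δ k)) := by ring
      _ = √B * √(hp x) * a k := by rw [sqrt_gr hδ0, ha]
  have hlim0 : ∀ x, Tendsto (fun k => (δ ^ k)⁻¹ * √(hp (g^[k] x))) atTop (𝓝 0) := by
    intro x
    have h3 : Tendsto (fun k => √B * √(hp x) * a k) atTop (𝓝 (√B * √(hp x) * 0)) :=
      hsum'.tendsto_atTop_zero.const_mul _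
    rw [mul_zero] at h3
    exact squeeze_zero (fun k => by positivity) (fun k => hsq k x) h3
  have hstep : ∀ x k, |(δ ^ (k + 1))⁻¹ * e (g^[k + 1] x) - (δ ^ k)⁻¹ * e (g^[k] x)|
      ≤ K * √B * √(hp x) * a k := by
    intro x k
    have h3 := h1 (g^[k] x)
    have h4 : (δ ^ (k + 1))⁻¹ * e (g^[k + 1] x) - (δ ^ k)⁻¹ * e (g^[k] x)
        = (δ ^ (k + 1))⁻¹ * (e (g (g^[k] x)) - δ * e (g^[k] x)) := by
      rw [Function.iterate_succ_apply', pow_succ]
      field_simp
    rw [h4, abs_mul, abs_of_pos (by positivity : 0 < (δ ^ (k + 1))⁻¹)]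
    have h5 : (δ ^ (k + 1))⁻¹ ≤ (δ ^ k)⁻¹ := by
      refine inv_anti₀ (by positivity) ?_
      exact pow_le_pow_right₀ hδ.le (by omega)
    calc (δ ^ (k + 1))⁻¹ * |e (g (g^[k] x)) - δ * e (g^[k] x)|
        ≤ (δ ^ k)⁻¹ * (K * √(hp (g^[k] x))) :=
          mul_le_mul h5 h3 (abs_nonneg _) (by positivity)
      _ = K * ((δ ^ k)⁻¹ * √(hp (g^[k] x))) := by ring
      _ ≤ K * (√B * √(hp x) * a k) := mul_le_mul_of_nonneg_left (hsq k x) hK.le
      _ = _ := by ring
  have hS : ∀ x, Summable fun k => (δ ^ (k + 1))⁻¹ * e (g^[k + 1] x) - (δ ^ k)⁻¹ * e (g^[k] x) :=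
    fun x => Summable.of_norm_bounded (hsum'.mul_left _) (fun k => by
      rw [Real.norm_eq_abs]; exact hstep x k)
  refine ⟨fun x => e x + ∑' k, ((δ ^ (k + 1))⁻¹ * e (g^[k + 1] x) - (δ ^ k)⁻¹ * e (g^[k] x)),
    K * √B * (∑' k, a k) + 1, ?_, ?_, ?_, hlim0⟩
  · have : 0 ≤ ∑' k, a k := tsum_nonneg ha0
    positivity
  · intro x
    simp only [add_sub_cancel_left]
    have h3 : |∑' k, ((δ ^ (k + 1))⁻¹ * e (g^[k + 1] x) - (δ ^ k)⁻¹ * e (g^[k] x))|
        ≤ ∑' k, K * √B * √(hp x) * a k := by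
      rw [← Real.norm_eq_abs]
      exact tsum_of_norm_bounded (hsum'.mul_left _).hasSum (fun k => by
        rw [Real.norm_eq_abs]; exact hstep x k)
    refine h3.trans ?_
    rw [tsum_mul_left]
    have h4 := Real.sqrt_nonneg (hp x)
    nlinarith
  · intro x
    have h3 := (hS x).hasSum.tendsto_sum_nat
    have h4 : ∀ n : ℕ, ∑ k ∈ Finset.range n,
        ((δ ^ (k + 1))⁻¹ * e (g^[k + 1] x) - (δ ^ k)⁻¹ * e (g^[k] x))
        = (δ ^ n)⁻¹ * e (g^[n] x) - e x := by
      intro n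
      rw [Finset.sum_range_sub (fun k => (δ ^ k)⁻¹ * e (g^[k] x))]
      simp
    have h5 := h3.const_add (e x)
    refine h5.congr fun n => ?_
    rw [h4]
    ring

/-- Equivariance of the canonical height. -/
lemma can_equiv {X : Type} {g f : X → X} {e hp h : X → ℝ} {δ χ K : ℝ} (hδ : 1 < δ)
    (hcomm : ∀ x, f (g x) = g (f x)) (h1 : ∀ x, |e (f x) - χ * e x| ≤ K * √(hp x))
    (hlim : ∀ x, Tendsto (fun k => (δ ^ k)⁻¹ * e (g^[k] x)) atTop (𝓝 (h x)))
    (hlim0 : ∀ x, Tendsto (fun k => (δ ^ k)⁻¹ * √(hp (g^[k] x))) atTop (𝓝 0)) (x : X) :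
    h (f x) = χ * h x := by
  have hδ0 : 0 < δ := by linarith
  have hc : ∀ k, g^[k] (f x) = f (g^[k] x) := by
    intro k
    induction k with
    | zero => rfl
    | succ k ih => rw [Function.iterate_succ_apply', Function.iterate_succ_apply', ih, hcomm]
  have h2 : Tendsto (fun k => (δ ^ k)⁻¹ * e (g^[k] (f x)) - χ * ((δ ^ k)⁻¹ * e (g^[k] x))) atTop
      (𝓝 (h (f x) - χ * h x)) := (hlim (f x)).sub ((hlim x).const_mul χ)
  have h3 : Tendsto (fun k => (δ ^ k)⁻¹ * e (g^[k] (f x)) - χ * ((δ ^ k)⁻¹ * e (g^[k] x))) atTop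
      (𝓝 0) := by
    have h4 : Tendsto (fun k => K * ((δ ^ k)⁻¹ * √(hp (g^[k] x)))) atTop (𝓝 (K * 0)) :=
      (hlim0 x).const_mul K
    rw [mul_zero] at h4
    refine squeeze_zero_norm (fun k => ?_) h4
    rw [hc, Real.norm_eq_abs]
    have h5 : (δ ^ k)⁻¹ * e (f (g^[k] x)) - χ * ((δ ^ k)⁻¹ * e (g^[k] x))
        = (δ ^ k)⁻¹ * (e (f (g^[k] x)) - χ * e (g^[k] x)) := by ring
    rw [h5, abs_mul, abs_of_pos (by positivity : 0 < (δ ^ k)⁻¹)]
    calc (δ ^ k)⁻¹ * |e (f (g^[k] x)) - χ * e (g^[k] x)|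
        ≤ (δ ^ k)⁻¹ * (K * √(hp (g^[k] x))) :=
          mul_le_mul_of_nonneg_left (h1 _) (by positivity)
      _ = _ := by ring
  have := tendsto_nhds_unique h2 h3
  linarith

/-! ### The orbits -/

/-- The data of a group of commuting automorphisms with its canonical heights. -/
structure Sys (X : Type) [TopologicalSpace X] (n r : ℕ) where
  F : (Fin r → ℤ) → X → X
  zero : ∀ x, F 0 x = x
  add : ∀ v w x, F (v + w) x = F v (F w x)
  cont : ∀ v, Continuous (F v)
  hp : X → ℝ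
  deg : X → ℕ
  deg_F : ∀ v x, deg (F v x) = deg x
  fin : ∀ (e : ℕ) (C : ℝ), {x | deg x ≤ e ∧ hp x ≤ C}.Finite
  χ : Fin n → (Fin r → ℤ) → ℝ
  χ_pos : ∀ i v, 0 < χ i v
  hh : Fin n → X → ℝ
  hh_F : ∀ i v x, hh i (F v x) = χ i v * hh i x
  Z₀ : Set X
  closed : IsClosed Z₀
  big : ∃ C : ℝ, ∀ x, x ∉ Z₀ → (∀ i, |hh i x| ≤ 1) → hp x ≤ C
  v₀ : Fin n → Fin r → ℤ
  contract : ∀ i j, j ≠ i → χ j (v₀ i) < 1
  expand : ∀ i, 1 < χ i (v₀ i)

namespace Sys

variable {X : Type} [TopologicalSpace X] {n r : ℕ} (S : Sys X n r)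

lemma inj (v : Fin r → ℤ) : Function.Injective (S.F v) := by
  intro x y h
  have h1 : S.F (-v) (S.F v x) = S.F (-v) (S.F v y) := by rw [h]
  rwa [← S.add, ← S.add, neg_add_cancel, S.zero, S.zero] at h1

lemma comm (v w : Fin r → ℤ) (x : X) : S.F v (S.F w x) = S.F w (S.F v x) := by
  rw [← S.add, ← S.add, add_comm]

lemma iter (v : Fin r → ℤ) (k : ℕ) (x : X) : (S.F v)^[k] x = S.F (k • v) x := by
  induction k with
  | zero => simp [S.zero]
  | succ k ih => rw [Function.iterate_succ_apply', ih, ← S.add, succ_nsmul, add_comm]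

lemma hh_iter (i : Fin n) (w v : Fin r → ℤ) (k : ℕ) (x : X) :
    S.hh i (S.F v ((S.F w)^[k] x)) = S.χ i v * (S.χ i w ^ k * S.hh i x) := by
  rw [S.hh_F]
  congr 1
  induction k with
  | zero => simp
  | succ k ih => rw [Function.iterate_succ_apply', S.hh_F, ih, pow_succ]; ring

/-- A closed set which contains a tail of the orbit contains the point. -/
lemma tail [TopologicalSpace.NoetherianSpace X] (w : Fin r → ℤ) (x : X) {W : Set X}
    (hW : IsClosed W) (h : ∀ᶠ k in atTop, (S.F w)^[k] x ∈ W) : x ∈ W := by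
  let T : ℕ → Set X := fun n => closure {y | ∃ k, n ≤ k ∧ y = (S.F w)^[k] x}
  have hT : ∀ n, IsClosed (T n) := fun n => isClosed_closure
  let U : ℕ →o TopologicalSpace.Opens X :=
    { toFun := fun n => ⟨(T n)ᶜ, (hT n).isOpen_compl⟩
      monotone' := by
        intro a b hab
        show (T a)ᶜ ⊆ (T b)ᶜ
        rw [Set.compl_subset_compl]
        refine closure_mono ?_
        rintro y ⟨k, hk, rfl⟩
        exact ⟨k, hab.trans hk, rfl⟩ }
  have hwf : WellFoundedGT (TopologicalSpace.Opens X) := inferInstance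
  obtain ⟨N, hN⟩ := WellFoundedGT.monotone_chain_condition U
  have hstab : ∀ m, N ≤ m → T N = T m := by
    intro m hm
    have h1 := congrArg (fun O : TopologicalSpace.Opens X => (O : Set X)) (hN m hm)
    have h2 : (T N)ᶜ = (T m)ᶜ := h1
    exact compl_injective h2
  have hx : ∀ m, x ∈ T m := by
    intro m
    have h1 : (S.F w)^[N] x ∈ T (N + m) := by
      rw [← hstab (N + m) (by omega)]
      exact subset_closure ⟨N, le_rfl, rfl⟩
    have h2 : S.F (-(N • w)) ((S.F w)^[N] x) ∈ S.F (-(N • w)) '' T (N + m) := ⟨_, h1, rfl⟩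
    have h3 := image_closure_subset_closure_image (S.cont (-(N • w))) h2
    rw [S.iter, ← S.add, neg_add_cancel, S.zero] at h3
    refine closure_mono ?_ h3
    rintro _ ⟨y, ⟨k, hk, rfl⟩, rfl⟩
    refine ⟨k - N, by omega, ?_⟩
    rw [S.iter, S.iter, ← S.add]
    congr 1
    have h4 : k • w = (k - N) • w + N • w := by
      rw [← add_nsmul]
      congr 1
      omega
    rw [h4]
    abel
  obtain ⟨m, hm⟩ := eventually_atTop.1 h
  have h1 : T m ⊆ W := by
    refine closure_minimal ?_ hW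
    rintro y ⟨k, hk, rfl⟩
    exact hm k hk
  exact h1 (hx m)

/-- The exceptional set. -/
def Z : Set X := {x | ∀ v, S.F v x ∈ S.Z₀}

lemma Z_closed : IsClosed S.Z := by
  have : S.Z = ⋂ v, S.F v ⁻¹' S.Z₀ := by
    ext x
    simp [Z]
  rw [this]
  exact isClosed_iInter fun v => S.closed.preimage (S.cont v)

lemma Z_inv (v : Fin r → ℤ) (x : X) : S.F v x ∈ S.Z ↔ x ∈ S.Z := by
  constructor
  · intro h w
    have := h (w - v)
    rwa [← S.add, sub_add_cancel] at this
  · intro h w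
    rw [← S.add]
    exact h _

lemma Z_sub : S.Z ⊆ S.Z₀ := by
  intro x h
  have := h 0
  rwa [S.zero] at this

/-- Small heights far out in the orbit. -/
lemma recur [TopologicalSpace.NoetherianSpace X] (w : Fin r → ℤ) (x : X) (hx : x ∉ S.Z)
    (h : ∀ v, ∀ᶠ k in atTop, ∀ i, |S.hh i (S.F v ((S.F w)^[k] x))| ≤ 1) :
    ∃ N : ℕ, 0 < N ∧ S.F (N • w) x = x := by
  by_contra hcon
  push Not at hcon
  obtain ⟨C, hC⟩ := S.big
  have hinj : Function.Injective fun k : ℕ => (S.F w)^[k] x := by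
    have key : ∀ a b : ℕ, a < b → (S.F w)^[a] x = (S.F w)^[b] x → False := by
      intro a b hab he
      obtain ⟨c, rfl⟩ := Nat.exists_eq_add_of_lt hab
      rw [S.iter, S.iter, add_assoc, add_nsmul, S.add] at he
      exact hcon (c + 1) (by omega) (S.inj _ he).symm
    intro a b he
    rcases lt_trichotomy a b with h1 | h1 | h1
    · exact (key a b h1 he).elim
    · exact h1
    · exact (key b a h1 he.symm).elim
  refine hx fun v => ?_
  have h1 : S.F v ((S.F w)^[0] x) ∈ S.Z₀ := by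
    refine S.tail w x (W := S.F v ⁻¹' S.Z₀) (S.closed.preimage (S.cont v)) ?_
    have hfin := S.fin (S.deg x) C
    have hne : ∀ᶠ k in atTop, S.F v ((S.F w)^[k] x) ∉ {y | S.deg y ≤ S.deg x ∧ S.hp y ≤ C} := by
      have h2 : Function.Injective fun k : ℕ => S.F v ((S.F w)^[k] x) :=
        (S.inj v).comp hinj
      have h3 := h2.tendsto_cofinite.eventually hfin.compl_mem_cofinite
      rw [Nat.cofinite_eq_atTop] at h3
      exact h3
    filter_upwards [hne, h v] with k hk1 hk2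
    by_contra hk3
    refine hk1 ⟨?_, hC _ hk3 hk2⟩
    rw [S.deg_F, S.iter, S.deg_F]
  exact h1

/-- If one canonical height vanishes, then all do. -/
lemma all_zero [TopologicalSpace.NoetherianSpace X] (x : X) (hx : x ∉ S.Z) (i : Fin n)
    (hi : S.hh i x = 0) (j : Fin n) : S.hh j x = 0 := by
  obtain ⟨N, hN, hper⟩ := S.recur (S.v₀ i) x hx (by
    intro v
    rw [eventually_all]
    intro j
    have h1 : Tendsto (fun k => |S.hh j (S.F v ((S.F (S.v₀ i))^[k] x))|) atTop (𝓝 0) := by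
      by_cases hji : j = i
      · subst hji
        simp [S.hh_iter, hi]
      · have h2 : Tendsto (fun k => S.χ j v * (S.χ j (S.v₀ i) ^ k * S.hh j x)) atTop
            (𝓝 (S.χ j v * (0 * S.hh j x))) :=
          ((tendsto_pow_atTop_nhds_zero_of_lt_one (S.χ_pos _ _).le
            (S.contract i j hji)).mul_const _).const_mul _
        rw [zero_mul, mul_zero] at h2
        have h3 := h2.abs
        rw [abs_zero] at h3
        refine h3.congr fun k => ?_
        rw [S.hh_iter]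
    filter_upwards [h1.eventually (eventually_lt_nhds one_pos)] with k hk
    exact hk.le)
  by_cases hji : j = i
  · rw [hji]; exact hi
  have h1 : S.hh j x = S.χ j (S.v₀ i) ^ N * S.hh j x := by
    have h2 := S.hh_iter j (S.v₀ i) 0 N x
    rw [S.zero, S.iter, hper] at h2
    have h3 := S.hh_F j 0 x
    rw [S.zero] at h3
    by_cases h0 : S.hh j x = 0
    · rw [h0, mul_zero]
    · have h4 : S.χ j 0 = 1 := by
        have : 1 * S.hh j x = S.χ j 0 * S.hh j x := by rw [one_mul]; exact h3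
        exact (mul_right_cancel₀ h0 this).symm
      rw [h4, one_mul] at h2
      exact h2
  have h2 : S.χ j (S.v₀ i) ^ N < 1 := pow_lt_one₀ (S.χ_pos _ _).le (S.contract i j hji) hN.ne'
  by_contra h3
  have h4 : (1 - S.χ j (S.v₀ i) ^ N) * S.hh j x = 0 := by linarith
  rcases mul_eq_zero.1 h4 with h5 | h5
  · linarith
  · exact h3 h5

/-- Vanishing canonical heights and finite orbits. -/
lemma finite_orbit [TopologicalSpace.NoetherianSpace X] (x : X) (hx : x ∉ S.Z)
    (h0 : ∀ j, S.hh j x = 0) : (Set.range fun v => S.F v x).Finite := by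
  have hper : ∀ w, ∃ N : ℕ, 0 < N ∧ S.F (N • w) x = x := fun w =>
    S.recur w x hx (fun v => Eventually.of_forall fun k i => by
      rw [S.hh_iter, h0, mul_zero, mul_zero, abs_zero]; exact zero_le_one)
  choose N hN hper using hper
  -- the periods of the generators
  let P : Fin r → ℤ := fun k => (N (Pi.single k 1) : ℤ)
  have hP : ∀ k, 0 < P k := fun k => by
    have := hN (Pi.single k 1)
    show (0 : ℤ) < (N (Pi.single k 1) : ℤ)
    exact_mod_cast this
  -- the stabiliser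
  let St : AddSubgroup (Fin r → ℤ) :=
    { carrier := {v | S.F v x = x}
      add_mem' := by
        intro a b ha hb
        show S.F (a + b) x = x
        rw [S.add, show S.F b x = x from hb]
        exact ha
      zero_mem' := S.zero x
      neg_mem' := by
        intro a ha
        show S.F (-a) x = x
        have h1 : S.F (-a) (S.F a x) = x := by rw [← S.add, neg_add_cancel, S.zero]
        rwa [show S.F a x = x from ha] at h1 }
  have hSt : ∀ k, Pi.single k (P k) ∈ St := by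
    intro k
    show S.F (Pi.single k (P k)) x = x
    have h1 := hper (Pi.single k 1)
    have h2 : (N (Pi.single k 1) • Pi.single k 1 : Fin r → ℤ) = Pi.single k (P k) := by
      rw [← Pi.single_smul]
      simp [P]
    rwa [h2] at h1
  have hfin : (Set.Icc (0 : Fin r → ℤ) P).Finite := Set.finite_Icc _ _
  refine (hfin.image fun v => S.F v x).subset ?_
  rintro _ ⟨v, rfl⟩
  refine ⟨fun k => v k % P k, ⟨fun k => Int.emod_nonneg _ (hP k).ne',
    fun k => (Int.emod_lt_of_pos _ (hP k)).le⟩, ?_⟩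
  have h1 : v - (fun k => v k % P k) ∈ St := by
    have h2 : v - (fun k => v k % P k) = ∑ k, (v k / P k) • Pi.single k (P k) := by
      funext k
      rw [Finset.sum_apply, Finset.sum_eq_single k]
      · simp only [Pi.sub_apply, Pi.smul_apply, Pi.single_eq_same, smul_eq_mul]
        have := Int.emod_add_mul_ediv (v k) (P k)
        linarith
      · intro j _ hj
        simp [hj.symm]
      · simp
    rw [h2]
    exact AddSubgroup.sum_mem _ fun k _ => AddSubgroup.zsmul_mem _ (hSt k) _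
  have h2 : S.F (v - (fun k => v k % P k)) x = x := h1
  show S.F (fun k => v k % P k) x = S.F v x
  have h3 : v = (fun k => v k % P k) + (v - (fun k => v k % P k)) := by abel
  conv_rhs => rw [h3, S.add, h2]

lemma zero_of_finite (x : X) (h : (Set.range fun v => S.F v x).Finite) (j : Fin n) :
    S.hh j x = 0 := by
  obtain ⟨a, b, hab, he⟩ : ∃ a b : ℕ, a < b ∧ (S.F (S.v₀ j))^[a] x = (S.F (S.v₀ j))^[b] x := by
    by_contra hcon
    push Not at hcon
    have hinj : Function.Injective fun k : ℕ => (S.F (S.v₀ j))^[k] x := by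
      intro a b he
      rcases lt_trichotomy a b with h1 | h1 | h1
      · exact (hcon a b h1 he).elim
      · exact h1
      · exact (hcon b a h1 he.symm).elim
    refine Set.infinite_range_of_injective hinj (h.subset ?_)
    rintro _ ⟨k, rfl⟩
    exact ⟨k • S.v₀ j, (S.iter _ _ _).symm⟩
  have h1 := S.hh_iter j (S.v₀ j) 0 a x
  have h2 := S.hh_iter j (S.v₀ j) 0 b x
  rw [he] at h1
  rw [h1] at h2
  have h3 := mul_left_cancel₀ (S.χ_pos j 0).ne' h2
  by_contra h4
  have h5 := mul_right_cancel₀ h4 h3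
  have h6 := pow_lt_pow_right₀ (S.expand j) hab
  linarith

/-- **The structure of the orbits.** -/
theorem main [TopologicalSpace.NoetherianSpace X] :
    (∀ x, x ∉ S.Z → (Set.range fun v => S.F v x).Finite ∨ ∀ i, S.hh i x ≠ 0) ∧
    ∀ e : ℕ, {x | x ∉ S.Z ∧ S.deg x ≤ e ∧ (Set.range fun v => S.F v x).Finite}.Finite := by
  constructor
  · intro x hx
    by_cases h : ∃ i, S.hh i x = 0
    · obtain ⟨i, hi⟩ := h
      exact Or.inl (S.finite_orbit x hx (S.all_zero x hx i hi))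
    · push Not at h
      exact Or.inr h
  · intro e
    obtain ⟨C, hC⟩ := S.big
    have h1 : ((⋃ y ∈ {y | (S.deg y ≤ e ∧ S.hp y ≤ C) ∧ (Set.range fun v => S.F v y).Finite},
        Set.range fun v => S.F v y) : Set X).Finite := by
      refine Set.Finite.biUnion ((S.fin e C).subset fun y hy => hy.1) fun y hy => hy.2
    refine h1.subset ?_
    rintro x ⟨hx, hxe, hxf⟩
    have h0 := S.zero_of_finite x hxf
    obtain ⟨w, hw⟩ : ∃ w, S.F w x ∉ S.Z₀ := by
      by_contra hcon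
      push Not at hcon
      exact hx hcon
    rw [Set.mem_iUnion₂]
    refine ⟨S.F w x, ⟨⟨by rw [S.deg_F]; exact hxe, hC _ hw fun i => ?_⟩, ?_⟩, ⟨-w, ?_⟩⟩
    · rw [S.hh_F, h0, mul_zero, abs_zero]
      exact zero_le_one
    · refine hxf.subset ?_
      rintro _ ⟨v, rfl⟩
      exact ⟨v + w, S.add _ _ _⟩
    · show S.F (-w) (S.F w x) = x
      rw [← S.add, neg_add_cancel, S.zero]

end Sys

end Run7.h334.KSR
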