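import Mathlib
import Pool.Agent.Q8.KS.Core

set_option autoImplicit false

open Filter Topology Polynomial
open Pool.Agent.Q8.KS (gr gr_pos poly_geom)

namespace Run7.h334.KSR

variable {E : Type} [NormedAddCommGroup E] [NormedSpace ℝ E]

lemma le_of_growth {z d c C : ℝ} {ℓ : ℕ} (hd : 0 < d) (hc : 0 < c)
    (h : ∀ k : ℕ, c * z ^ k ≤ C * gr ℓ d k) : z ≤ d := by
  by_contra hcon
  push Not at hcon
  obtain ⟨q, hdq, hqz⟩ := exists_between hcon
  have hq0 : 0 < q := hd.trans hdq
  obtain ⟨C', hC', hb⟩ := poly_geom ℓ hd hdq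
  have h1 : ∀ k : ℕ, (z / q) ^ k ≤ |C| * (C' * q / d) / c := by
    intro k
    have h2 : c * z ^ k ≤ |C| * (C' * q / d * q ^ k) := by
      refine (h k).trans ?_
      have h3 : gr ℓ d k ≤ C' * q / d * q ^ k := by
        have h5 := hb (k + 1)
        push_cast at h5
        have h6 : C' * q / d * q ^ k = C' * q ^ (k + 1) / d := by ring
        rw [h6, le_div_iff₀ hd]
        unfold gr
        calc ((k : ℝ) + 1) ^ ℓ * d ^ k * d = ((k : ℝ) + 1) ^ ℓ * d ^ (k + 1) := by ring
          _ ≤ _ := h5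
      have h4 := (gr_pos ℓ hd k).le
      calc C * gr ℓ d k ≤ |C| * gr ℓ d k := mul_le_mul_of_nonneg_right (le_abs_self C) h4
        _ ≤ |C| * (C' * q / d * q ^ k) := mul_le_mul_of_nonneg_left h3 (abs_nonneg C)
    rw [div_pow, div_le_div_iff₀ (by positivity) hc]
    linarith
  have h2 : Tendsto (fun k : ℕ => (z / q) ^ k) atTop atTop :=
    tendsto_pow_atTop_atTop_of_one_lt ((one_lt_div hq0).2 hqz)
  obtain ⟨k, hk⟩ := (h2.eventually (eventually_gt_atTop (|C| * (C' * q / d) / c))).exists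
  exact absurd (h1 k) (not_le.2 hk)

/-- **Kronecker's gap**: the spectral radii of the endomorphisms of a lattice do not accumulate
at `1` from above. -/
theorem gap [FiniteDimensional ℝ E] {ρ : ℕ} (b : Module.Basis (Fin ρ) ℝ E) :
    ∃ ε : ℝ, 0 < ε ∧ ∀ T : E →ₗ[ℝ] E,
      (∀ D ∈ Submodule.span ℤ (Set.range b), T D ∈ Submodule.span ℤ (Set.range b)) →
      ∀ d : ℝ, 1 < d → (∃ w : E, w ≠ 0 ∧ T w = d • w) →
      (∃ (ℓ : ℕ) (B : ℝ), 0 < B ∧ ∀ (k : ℕ) (x : E), ‖(T ^ k) x‖ ≤ B * ‖x‖ * gr ℓ d k) →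
      1 + ε ≤ d := by
  classical
  obtain ⟨R, hR⟩ : ∃ R : ℕ, max (2 : ℝ) 1 ^ ρ * (ρ.choose (ρ / 2)) ≤ R := exists_nat_ge _
  let U : Set ℤ := Set.Icc (-(R : ℤ)) R
  have hU : U.Finite := Set.finite_Icc _ _
  have hF := bUnion_roots_finite (Int.castRingHom ℝ) ρ hU
  obtain ⟨F, hFdef⟩ : ∃ F : Set ℝ, F = (⋃ (f : ℤ[X]) (_ : f.natDegree ≤ ρ ∧ ∀ i, f.coeff i ∈ U),
    ((f.map (Int.castRingHom ℝ)).roots.toFinset : Set ℝ)) := ⟨_, rfl⟩
  rw [← hFdef] at hF
  have hF' : ({x | x ∈ F ∧ 1 < x} ∪ {2} : Set ℝ).Finite :=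
    (hF.subset fun x hx => hx.1).union (Set.finite_singleton 2)
  obtain ⟨m, hm, hmin⟩ := Set.exists_min_image _ (fun x : ℝ => x) hF' ⟨2, Or.inr rfl⟩
  have hm1 : 1 < m := by
    rcases hm with h | h
    · exact h.2
    · rw [Set.mem_singleton_iff] at h
      rw [h]
      norm_num
  have hm2 : m ≤ 2 := hmin 2 (Or.inr rfl)
  refine ⟨m - 1, by linarith, ?_⟩
  rintro T hT d hd ⟨w, hw0, hw⟩ ⟨ℓ, B, hB, hgr⟩
  have hd0 : 0 < d := by linarith
  by_cases hd2 : 2 < d
  · linarith
  push Not at hd2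
  have hdF : d ∈ F := by
    -- the integral matrix
    have h1 : ∀ i j, ∃ n : ℤ, (n : ℝ) = b.repr (T (b j)) i := by
      intro i j
      have h2 := hT (b j) (Submodule.subset_span ⟨j, rfl⟩)
      rw [Module.Basis.mem_span_iff_repr_mem] at h2
      obtain ⟨n, hn⟩ := h2 i
      exact ⟨n, by rw [← hn]; simp⟩
    choose N hN using h1
    obtain ⟨M, hM⟩ : ∃ M : Matrix (Fin ρ) (Fin ρ) ℤ, M = Matrix.of N := ⟨_, rfl⟩
    have hMT : M.map (Int.castRingHom ℝ) = LinearMap.toMatrix b b T := by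
      ext i j
      rw [Matrix.map_apply, LinearMap.toMatrix_apply, hM]
      exact hN i j
    -- entries of the powers
    obtain ⟨C, hC, hentry⟩ : ∃ C : ℝ, 0 < C ∧ ∀ (k : ℕ) (i j : Fin ρ),
        |((M ^ k) i j : ℝ)| ≤ C * gr ℓ d k := by
      have h3 : ∀ i, ∃ c : ℝ, ∀ x, |b.repr x i| ≤ c * ‖x‖ := by
        intro i
        let L : E →L[ℝ] ℝ := LinearMap.toContinuousLinearMap (b.coord i)
        exact ⟨‖L‖, fun x => L.le_opNorm x⟩
      choose c hc using h3
      refine ⟨∑ i, ∑ j, |c i| * (B * ‖b j‖) + 1, by positivity, fun k i j => ?_⟩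
      have h4 : ((M ^ k) i j : ℝ) = b.repr ((T ^ k) (b j)) i := by
        have h5 : (M ^ k).map (Int.castRingHom ℝ) = LinearMap.toMatrix b b (T ^ k) := by
          rw [← LinearMap.toMatrix_pow, ← hMT]
          exact (map_pow (Int.castRingHom ℝ).mapMatrix M k)
        have h6 := congrFun (congrFun h5 i) j
        rw [LinearMap.toMatrix_apply] at h6
        exact h6
      rw [h4]
      have hg := (gr_pos ℓ hd0 k).le
      calc |b.repr ((T ^ k) (b j)) i| ≤ |c i| * (B * ‖b j‖ * gr ℓ d k) := by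
            refine (hc i _).trans ?_
            exact (mul_le_mul_of_nonneg_right (le_abs_self _) (norm_nonneg _)).trans
              (mul_le_mul_of_nonneg_left (hgr k _) (abs_nonneg _))
        _ = |c i| * (B * ‖b j‖) * gr ℓ d k := by ring
        _ ≤ (∑ i, ∑ j, |c i| * (B * ‖b j‖) + 1) * gr ℓ d k := by
            refine mul_le_mul_of_nonneg_right ?_ hg
            have h5 : |c i| * (B * ‖b j‖) ≤ ∑ j, |c i| * (B * ‖b j‖) :=
              Finset.single_le_sum (f := fun j => |c i| * (B * ‖b j‖))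
                (fun j _ => by positivity) (Finset.mem_univ j)
            have h6 : ∑ j, |c i| * (B * ‖b j‖) ≤ ∑ i, ∑ j, |c i| * (B * ‖b j‖) :=
              Finset.single_le_sum (f := fun i => ∑ j, |c i| * (B * ‖b j‖))
                (fun i _ => Finset.sum_nonneg fun j _ => by positivity) (Finset.mem_univ i)
            linarith
    -- the complex roots
    have hroots : ∀ z ∈ (M.charpoly.map (Int.castRingHom ℂ)).roots, ‖z‖ ≤ 2 := by
      intro z hz
      refine le_trans ?_ hd2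
      have h3 : (M.map (Int.castRingHom ℂ)).charpoly.IsRoot z := by
        rw [Matrix.charpoly_map]
        exact isRoot_of_mem_roots hz
      have h4 : (Matrix.scalar (Fin ρ) z - M.map (Int.castRingHom ℂ)).det = 0 := by
        rw [← Matrix.eval_charpoly]
        exact h3
      obtain ⟨u, hu0, hu⟩ := Matrix.exists_mulVec_eq_zero_iff.2 h4
      have h5 : (M.map (Int.castRingHom ℂ)).mulVec u = z • u := by
        rw [Matrix.sub_mulVec, sub_eq_zero] at hu
        rw [← hu]
        ext i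
        simp [Matrix.scalar_apply, Matrix.mulVec_diagonal]
      have h6 : ∀ k : ℕ, ((M ^ k).map (Int.castRingHom ℂ)).mulVec u = z ^ k • u := by
        intro k
        have h7 : (M ^ k).map (Int.castRingHom ℂ) = (M.map (Int.castRingHom ℂ)) ^ k :=
          map_pow (Int.castRingHom ℂ).mapMatrix M k
        rw [h7]
        induction k with
        | zero => simp
        | succ k ih =>
          rw [pow_succ', ← Matrix.mulVec_mulVec, ih (map_pow (Int.castRingHom ℂ).mapMatrix M k),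
            Matrix.mulVec_smul, h5, smul_smul, pow_succ]
      obtain ⟨i, hi⟩ := Function.ne_iff.1 hu0
      have hi' : 0 < ‖u i‖ := norm_pos_iff.2 hi
      refine le_of_growth (ℓ := ℓ) (C := C * ∑ j, ‖u j‖) hd0 hi' fun k => ?_
      have h8 := congrFun (h6 k) i
      have h9 : ‖u i‖ * ‖z‖ ^ k = ‖(z ^ k • u) i‖ := by
        rw [Pi.smul_apply, smul_eq_mul, norm_mul, norm_pow, mul_comm]
      rw [h9, ← h8, Matrix.mulVec, dotProduct]
      refine (norm_sum_le _ _).trans ?_
      rw [mul_assoc, mul_comm (∑ j, ‖u j‖), ← mul_assoc, Finset.mul_sum]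
      refine Finset.sum_le_sum fun j _ => ?_
      rw [norm_mul]
      refine mul_le_mul_of_nonneg_right ?_ (norm_nonneg _)
      have h10 := hentry k i j
      have h11 : ‖((M ^ k).map (Int.castRingHom ℂ)) i j‖ = |((M ^ k) i j : ℝ)| := by
        rw [Matrix.map_apply, eq_intCast, Complex.norm_intCast]
      rw [h11]
      exact h10
    -- the coefficients
    have hnd : M.charpoly.natDegree ≤ ρ := by
      rw [Matrix.charpoly_natDegree_eq_dim]
      simp
    have hcoeff : ∀ i, M.charpoly.coeff i ∈ U := by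
      intro i
      have h3 := coeff_bdd_of_roots_le (Int.castRingHom ℂ) (Matrix.charpoly_monic M)
        (IsAlgClosed.splits _) hnd hroots i
      rw [coeff_map, eq_intCast, Complex.norm_intCast] at h3
      have h4 : |(M.charpoly.coeff i : ℝ)| ≤ R := h3.trans hR
      have h5 : |M.charpoly.coeff i| ≤ (R : ℤ) := by exact_mod_cast h4
      exact abs_le.1 h5
    rw [hFdef]
    refine Set.mem_iUnion₂.2 ⟨M.charpoly, ⟨hnd, hcoeff⟩, ?_⟩
    rw [Finset.mem_coe, Multiset.mem_toFinset]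
    have h3 : M.charpoly.map (Int.castRingHom ℝ) = T.charpoly := by
      rw [← Matrix.charpoly_map, hMT, LinearMap.charpoly_toMatrix]
    rw [h3, mem_roots (LinearMap.charpoly_monic T).ne_zero]
    rw [← Module.End.hasEigenvalue_iff_isRoot_charpoly]
    exact Module.End.hasEigenvalue_of_hasEigenvector
      (Module.End.hasEigenvector_iff.2 ⟨Module.End.mem_eigenspace_iff.2 hw, hw0⟩)
  have hmd : m ≤ d := hmin d (Or.inl ⟨hdF, hd⟩)
  linarith

end Run7.h334.KSR
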