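import Mathlib
import Pool.Agent.Run7.h334.KSR.Chars
import Pool.Agent.Run7.h334.KSR.Gap
import Pool.Agent.Run7.h334.KSR.Dyn

/-!
Arithmetic degrees for groups of automorphisms of maximal rank.
-/

set_option autoImplicit false

open Filter Topology
open Pool.Agent.Q8.KS

namespace Run7.h334.KSR

variable {G : Type} [Group G] {V : ProjVariety G}

/-- The first dynamical degrees have a gap at `1`. -/
lemma exists_gap {r : ℕ} (Φ : LatticeAction V r) {A : V.Pic} (hA : V.IsAmple A) {u : V.Pt → ℝ}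
    (hu : V.IsHeight A u) : ∃ ε : ℝ, 0 < ε ∧ ∀ (v : Fin r → ℤ) (d : ℝ), 1 < d →
      IsDynamicalDegree (Φ.f v) A d → 1 + ε ≤ d := by
  obtain ⟨ρ, b, hb⟩ := V.lattice_basis
  obtain ⟨ε, hε, h⟩ := gap b
  refine ⟨ε, hε, fun v d hd hdyn => ?_⟩
  obtain ⟨s, η, hs, hη, -⟩ := exists_lift V.toVariety
  obtain ⟨ℓ, c, B, hc, hB, -, hup, -⟩ := along V.toVariety s η hs hη (Φ.f v) hA hu hd hdyn
  refine h (Φ.f v).ns (fun D hD => ?_) d hd ?_ ⟨ℓ, B, hB, hup⟩
  · rw [← hb] at hD ⊢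
    exact Φ.ns_lattice v D hD
  · obtain ⟨w, -, hw0, hw⟩ := Pool.Agent.Q8.KS.perron V.nef_cone (V.deg (V.cls A))
      (fun x hx h0 => V.int_pos _ hA x hx h0) hA (Φ.f v).ns (Φ.f v).nef (by linarith) hdyn
    exact ⟨w, hw0, hw⟩

lemma ncard_orbit {r : ℕ} (Φ : LatticeAction V r) (v : Fin r → ℤ) (x : V.Pt) :
    (MulAction.orbit G ((Φ.f v).pt x)).ncard = (MulAction.orbit G x).ncard := by
  have hinj : Function.Injective (Φ.f v).pt := by
    intro y z h
    have h1 : (Φ.f (-v)).pt ((Φ.f v).pt y) = (Φ.f (-v)).pt ((Φ.f v).pt z) := by rw [h]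
    rwa [← Φ.pt_add, ← Φ.pt_add, neg_add_cancel, Φ.pt_zero, Φ.pt_zero] at h1
  have h1 : MulAction.orbit G ((Φ.f v).pt x) = (Φ.f v).pt '' MulAction.orbit G x := by
    ext y
    constructor
    · rintro ⟨g, rfl⟩
      exact ⟨g • x, ⟨g, rfl⟩, (Φ.f v).pt_smul g x⟩
    · rintro ⟨_, ⟨g, rfl⟩, rfl⟩
      exact ⟨g, ((Φ.f v).pt_smul g x).symm⟩
  rw [h1, Set.ncard_image_of_injective _ hinj]

/-- **Automorphism groups of maximal rank.** -/
theorem main (hr : 0 < V.dimPred) (Φ : LatticeAction V V.dimPred) {A : V.Pic}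
    (hA : V.IsAmple A) {u : V.Pt → ℝ} (hu : V.IsHeight A u)
    (hpos : ∀ v : Fin V.dimPred → ℤ, v ≠ 0 → ∃ d, 1 < d ∧ IsDynamicalDegree (Φ.f v) A d) :
    ∃ Z : Set V.Pt, IsClosed Z ∧ Z ≠ Set.univ ∧ (∀ v x, (Φ.f v).pt x ∈ Z ↔ x ∈ Z) ∧
      (∀ x, x ∉ Z → (Set.range fun v => (Φ.f v).pt x).Finite ∨
        ∀ v d, IsDynamicalDegree (Φ.f v) A d → IsArithmeticDegree (Φ.f v) u x d) ∧
      ∀ e : ℕ, {x | x ∉ Z ∧ (MulAction.orbit G x).ncard ≤ e ∧
        (Set.range fun v => (Φ.f v).pt x).Finite}.Finite := by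
  classical
  obtain ⟨ε, hε, hgap⟩ := exists_gap Φ hA hu
  have hpos' : ∀ v : Fin V.dimPred → ℤ, v ≠ 0 →
      ∃ d, 1 + ε ≤ d ∧ IsDynamicalDegree (Φ.f v) A d := by
    intro v hv
    obtain ⟨d, hd, hdyn⟩ := hpos v hv
    exact ⟨d, hgap v d hd hdyn, hdyn⟩
  obtain ⟨χ, c, v₀, hcN, hχ0, hχ, hint, hval, hcontr, hexp, hdyn0⟩ :=
    structure_classes hA hr Φ hε hpos'
  obtain ⟨s, η, hs, hη, hinv⟩ := exists_lift V.toVariety
  obtain ⟨hp, hhp⟩ : ∃ hp : V.Pt → ℝ, hp = fun x => max 1 (u x) := ⟨_, rfl⟩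
  have hp1 : ∀ x, 1 ≤ hp x := fun x => by rw [hhp]; exact le_max_left _ _
  have hup : ∀ x, u x ≤ hp x := fun x => by rw [hhp]; exact le_max_right _ _
  have hsq1 : ∀ x, 1 ≤ √(hp x) := fun x => by
    rw [Real.one_le_sqrt]; exact hp1 x
  have hsqle : ∀ x, √(hp x) ≤ hp x := fun x => by
    rw [Real.sqrt_le_left (by linarith [hp1 x])]
    have := hp1 x
    nlinarith
  -- functoriality
  have hpull : ∀ (v : Fin V.dimPred → ℤ) (i : Fin (V.dimPred + 1)), ∃ K : ℝ, 0 < K ∧
      ∀ x, |η (c i) ((Φ.f v).pt x) - χ i v * η (c i) x| ≤ K * √(hp x) := by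
    intro v i
    obtain ⟨K, hK, h1⟩ := lift_pull V.toVariety s η hs hη (Φ.f v) hA hu
    refine ⟨K * ‖c i‖ + 1, by positivity, fun x => ?_⟩
    have h2 := h1 (c i) x
    rw [hχ, map_smul, Pi.smul_apply, smul_eq_mul] at h2
    refine h2.trans ?_
    rw [hhp]
    refine mul_le_mul_of_nonneg_right (by linarith) (Real.sqrt_nonneg _)
  -- growth
  have hgrow : ∀ (v : Fin V.dimPred → ℤ) (d : ℝ), 1 < d → IsDynamicalDegree (Φ.f v) A d →
      ∃ (ℓ : ℕ) (c B : ℝ), 0 < c ∧ 0 < B ∧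
        (∀ k, c * gr ℓ d k ≤ V.deg (V.cls A) (((Φ.f v).ns ^ k) (V.cls A))) ∧
        ∀ k x, hp ((Φ.f v).pt^[k] x) ≤ B * gr ℓ d k * hp x := by
    intro v d hd hdyn
    obtain ⟨ℓ, c, B, hc, hB, hlow, -, hmain⟩ := along V.toVariety s η hs hη (Φ.f v) hA hu hd hdyn
    refine ⟨ℓ, c, B + 1, hc, by linarith, hlow, fun k x => ?_⟩
    have h1 := (hmain k x).1
    have h2 := gr_one_le ℓ hd k
    have h3 := hp1 x
    have h4 : 1 ≤ gr ℓ d k * hp x := by nlinarith
    have h5 : u ((Φ.f v).pt^[k] x) ≤ B * (gr ℓ d k * hp x) := by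
      rw [hhp, ← mul_assoc]; exact h1
    have h6 : 0 ≤ B * (gr ℓ d k * hp x) := by positivity
    rw [show hp ((Φ.f v).pt^[k] x) = max 1 (u ((Φ.f v).pt^[k] x)) by rw [hhp], mul_assoc, add_mul,
      one_mul]
    exact max_le (by linarith) (by linarith)
  -- canonical heights
  have hcan : ∀ i : Fin (V.dimPred + 1), ∃ (h : V.Pt → ℝ) (C : ℝ), 0 < C ∧
      (∀ x, |h x - η (c i) x| ≤ C * √(hp x)) ∧
      ∀ (v : Fin V.dimPred → ℤ) x, h ((Φ.f v).pt x) = χ i v * h x := by
    intro i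
    obtain ⟨K, hK, h1⟩ := hpull (v₀ i) i
    obtain ⟨ℓ, -, B, -, hB, -, h2⟩ := hgrow (v₀ i) (χ i (v₀ i)) (hexp i) (hdyn0 i)
    obtain ⟨h, C, hC, h3, h4, h5⟩ := can (Φ.f (v₀ i)).pt (η (c i)) hp (hexp i) hK hB h1 h2
    refine ⟨h, C, hC, h3, fun v x => ?_⟩
    obtain ⟨K', hK', h6⟩ := hpull v i
    refine can_equiv (g := (Φ.f (v₀ i)).pt) (f := (Φ.f v).pt) (hexp i) (fun y => ?_) h6 h4 h5 x
    rw [← Φ.pt_add, ← Φ.pt_add, add_comm]
  choose hh C hC hhη hhF using hcan
  -- the big class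
  obtain ⟨L, hL⟩ : ∃ L : V.Pic, L = ∑ i, s (c i) := ⟨_, rfl⟩
  have hLcls : V.cls L = ∑ i, c i := by
    rw [hL, map_sum]
    exact Finset.sum_congr rfl fun i _ => hs _
  have hLnef : V.cls L ∈ V.Nef := by
    rw [hLcls]
    exact sum_mem V.nef_cone _ _ fun i _ => hcN i
  have hLpos : 0 < V.int (fun _ => V.cls L) := by
    rw [hLcls]
    have h1 : V.int (fun _ => ∑ i, c i)
        = ∑ φ : Fin (V.dimPred + 1) → Fin (V.dimPred + 1), V.int (fun k => c (φ k)) :=
      V.int.map_sum (fun _ j => c j)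
    rw [h1]
    refine lt_of_lt_of_le hint ?_
    exact Finset.single_le_sum (f := fun φ : Fin (V.dimPred + 1) → Fin (V.dimPred + 1) =>
      V.int (fun k => c (φ k))) (fun φ _ => V.int_nonneg _ fun k => hcN _)
      (Finset.mem_univ (fun k => k))
  obtain ⟨t, ht, hEff⟩ := V.kodaira L A hLnef hLpos hA
  have hLη : V.IsHeight L (∑ i, η (c i)) := by
    unfold Variety.IsHeight
    rw [hL, map_sum, map_sum]
    exact Finset.sum_congr rfl fun i _ => hη _
  obtain ⟨Z₀, hZ₀, hZ₀', c0, hc0⟩ := V.eff_height _ hEff _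
    (height_sub V.toVariety hLη (height_smul V.toVariety t hu))
  have hZb : ∀ x, x ∉ Z₀ → u x ≤ t⁻¹ * (∑ i, |η (c i) x| + |c0|) := by
    intro x hx
    have h1 := hc0 x hx
    simp only [Pi.sub_apply, Finset.sum_apply, Pi.smul_apply, smul_eq_mul] at h1
    have h2 : ∑ i, η (c i) x ≤ ∑ i, |η (c i) x| := Finset.sum_le_sum fun i _ => le_abs_self _
    have h3 := neg_abs_le c0
    rw [le_inv_mul_iff₀ ht]
    linarith
  have hbig : ∃ C4 : ℝ, ∀ x, x ∉ Z₀ → (∀ i, |hh i x| ≤ 1) → hp x ≤ C4 := by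
    obtain ⟨M, hM⟩ : ∃ M : ℝ, M = 1 + t⁻¹ * (∑ i, (1 + C i) + |c0|) := ⟨_, rfl⟩
    refine ⟨M ^ 2, fun x hx hi => ?_⟩
    have hq := hsq1 x
    have h1 : ∀ i, |η (c i) x| ≤ (1 + C i) * √(hp x) := by
      intro i
      have h2 := hhη i x
      have h3 : |η (c i) x| ≤ |hh i x| + |hh i x - η (c i) x| := by
        have := abs_sub (hh i x) (hh i x - η (c i) x)
        rwa [sub_sub_cancel] at this
      have h4 := hi i
      nlinarith
    have h2 : ∑ i, |η (c i) x| ≤ (∑ i, (1 + C i)) * √(hp x) := by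
      rw [Finset.sum_mul]
      exact Finset.sum_le_sum fun i _ => h1 i
    have h3 : |c0| ≤ |c0| * √(hp x) := le_mul_of_one_le_right (abs_nonneg _) hq
    have h4 : u x ≤ t⁻¹ * ((∑ i, (1 + C i)) * √(hp x) + |c0| * √(hp x)) :=
      (hZb x hx).trans (mul_le_mul_of_nonneg_left (by linarith) (by positivity))
    have h5 : 0 ≤ t⁻¹ * ((∑ i, (1 + C i)) * √(hp x) + |c0| * √(hp x)) := by
      have : 0 ≤ ∑ i, (1 + C i) := Finset.sum_nonneg fun i _ => by linarith [hC i]
      positivity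
    have h6 : hp x ≤ M * √(hp x) := by
      have h7 : hp x ≤ 1 + t⁻¹ * ((∑ i, (1 + C i)) * √(hp x) + |c0| * √(hp x)) := by
        calc hp x = max 1 (u x) := by rw [hhp]
          _ ≤ _ := max_le (by linarith) (by linarith)
      refine h7.trans ?_
      rw [hM]
      have h8 : (1 + t⁻¹ * (∑ i, (1 + C i) + |c0|)) * √(hp x)
          = √(hp x) + t⁻¹ * ((∑ i, (1 + C i)) * √(hp x) + |c0| * √(hp x)) := by ring
      rw [h8]
      linarith
    have h7 : √(hp x) ≤ M := by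
      have h8 : √(hp x) * √(hp x) ≤ M * √(hp x) := by
        rw [Real.mul_self_sqrt (by linarith [hp1 x])]
        exact h6
      exact le_of_mul_le_mul_right h8 (by linarith)
    calc hp x = √(hp x) ^ 2 := (Real.sq_sqrt (by linarith [hp1 x])).symm
      _ ≤ M ^ 2 := pow_le_pow_left₀ (Real.sqrt_nonneg _) h7 2
  -- the system
  let S : Sys V.Pt (V.dimPred + 1) V.dimPred :=
    { F := fun v => (Φ.f v).pt
      zero := Φ.pt_zero
      add := Φ.pt_add
      cont := Φ.continuous_pt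
      hp := hp
      deg := fun x => (MulAction.orbit G x).ncard
      deg_F := fun v x => ncard_orbit Φ v x
      fin := fun e C => (V.northcott A u hA hu e C).subset fun x hx => ⟨hx.1, (hup x).trans hx.2⟩
      χ := χ
      χ_pos := hχ0
      hh := hh
      hh_F := hhF
      Z₀ := Z₀
      closed := hZ₀
      big := hbig
      v₀ := v₀
      contract := hcontr
      expand := hexp }
  obtain ⟨hm1, hm2⟩ := S.main
  refine ⟨S.Z, S.Z_closed, ?_, S.Z_inv, ?_, hm2⟩
  · intro h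
    apply hZ₀'
    exact Set.eq_univ_of_univ_subset (h ▸ S.Z_sub)
  · intro x hx
    rcases hm1 x hx with h | h
    · exact Or.inl h
    refine Or.inr fun v d hdyn => ?_
    by_cases hv : v = 0
    · -- the identity
      subst hv
      have hpt : ∀ k : ℕ, (Φ.f 0).pt^[k] x = x := by
        intro k
        induction k with
        | zero => rfl
        | succ k ih => rw [Function.iterate_succ_apply', ih, Φ.pt_zero]
      have hns : ∀ k : ℕ, ((Φ.f 0).ns ^ k) (V.cls A) = V.cls A := by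
        intro k
        induction k with
        | zero => simp
        | succ k ih =>
          rw [pow_succ', Module.End.mul_apply, ih, Φ.ns_zero]
      have hdeg : 0 < V.deg (V.cls A) (V.cls A) := by
        obtain ⟨v1, hv1⟩ : ∃ v1 : Fin V.dimPred → ℤ, v1 ≠ 0 :=
          ⟨fun _ => 1, fun h => by
            have := congrFun h ⟨0, hr⟩
            norm_num at this⟩
        obtain ⟨d1, hd1, hdyn1⟩ := hpos v1 hv1
        have := deg_pos (V.deg (V.cls A)) (fun x hx h0 => V.int_pos _ hA x hx h0)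
          (interior_subset hA) (Φ.f v1).ns (Φ.f v1).nef (by linarith) hdyn1 0
        simpa using this
      have hd1 : d = 1 := by
        refine tendsto_nhds_unique hdyn ?_
        refine (const_rpow_tendsto hdeg).congr fun k => ?_
        rw [hns]
      rw [hd1]
      unfold IsArithmeticDegree
      refine (const_rpow_tendsto (lt_of_lt_of_le one_pos (hp1 x))).congr fun k => ?_
      rw [hpt, hhp]
    obtain ⟨d', hd', hdyn'⟩ := hpos v hv
    have hdd : d = d' := tendsto_nhds_unique hdyn hdyn'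
    have hd1 : 1 < d := by rw [hdd]; exact hd'
    obtain ⟨i, hi⟩ := hval v hv d hdyn
    obtain ⟨ℓ, c1, B, hc1, hB, hlow, hupp⟩ := hgrow v d hd1 hdyn
    obtain ⟨C6, hC6⟩ := height_bound V.toVariety hA hu (hη (c i))
    have hC7 : ∀ y, |hh i y| ≤ (|C6| + C i) * hp y := by
      intro y
      have h1 := hhη i y
      have h2 : |hh i y| ≤ |η (c i) y| + |hh i y - η (c i) y| := by
        have := abs_add_le (η (c i) y) (hh i y - η (c i) y)
        rwa [add_sub_cancel] at this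
      have h3 : |η (c i) y| ≤ |C6| * hp y := by
        refine (hC6 y).trans ?_
        rw [hhp]
        exact mul_le_mul_of_nonneg_right (le_abs_self _) (le_trans zero_le_one (le_max_left _ _))
      have h4 : C i * √(hp y) ≤ C i * hp y := mul_le_mul_of_nonneg_left (hsqle y) (hC i).le
      rw [add_mul]
      linarith
    have hCpos : 0 < |C6| + C i := by
      have := hC i
      positivity
    have hhit : ∀ k : ℕ, hh i ((Φ.f v).pt^[k] x) = d ^ k * hh i x := by
      intro k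
      induction k with
      | zero => simp
      | succ k ih => rw [Function.iterate_succ_apply', hhF, ih, hi, pow_succ]; ring
    have hd0 : 0 < d := by linarith
    have hx0 : 0 < |hh i x| := abs_pos.2 (h i)
    have hdegnn : ∀ k, 0 ≤ V.deg (V.cls A) (((Φ.f v).ns ^ k) (V.cls A)) := fun k =>
      (mul_nonneg hc1.le (gr_pos ℓ hd0 k).le).trans (hlow k)
    have hhpx : 0 < hp x := lt_of_lt_of_le one_pos (hp1 x)
    unfold IsArithmeticDegree
    have hfin := rate_between (a := fun k => V.deg (V.cls A) (((Φ.f v).ns ^ k) (V.cls A)))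
      (b := fun k => hp ((Φ.f v).pt^[k] x)) (x := |hh i x| / (|C6| + C i)) (y := B / c1 * hp x)
      hd0 (by positivity) (by positivity) hdegnn hdyn (fun k => ?_) (fun k => ?_)
    · refine hfin.congr fun k => ?_
      rw [hhp]
    · have h1 := hC7 ((Φ.f v).pt^[k] x)
      rw [hhit, abs_mul, abs_of_pos (by positivity : 0 < d ^ k)] at h1
      rw [div_mul_eq_mul_div, div_le_iff₀ hCpos]
      linarith
    · refine (hupp k x).trans ?_
      have h1 := hlow k
      calc B * gr ℓ d k * hp x = B / c1 * hp x * (c1 * gr ℓ d k) := by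
            field_simp
        _ ≤ B / c1 * hp x * V.deg (V.cls A) (((Φ.f v).ns ^ k) (V.cls A)) :=
            mul_le_mul_of_nonneg_left h1 (by positivity)

end Run7.h334.KSR
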