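import Mathlib
import Pool.Agent.Run7.h334.KSR.Main

/-!
Finiteness of the finite orbits outside of a given closed subset.
-/

set_option autoImplicit false

open Filter Topology
open Pool.Agent.Q8.KS

namespace Run7.h334.KSR

variable {G : Type} [Group G] {V : ProjVariety G}

/-- The eigenclasses of a group of maximal rank, and the finiteness of the finite orbits outside
of the support of a divisor in `L - t A`. -/
theorem main2 (hr : 0 < V.dimPred) (Φ : LatticeAction V V.dimPred) {A : V.Pic}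
    (hA : V.IsAmple A) {u : V.Pt → ℝ} (hu : V.IsHeight A u)
    (hpos : ∀ v : Fin V.dimPred → ℤ, v ≠ 0 → ∃ d, 1 < d ∧ IsDynamicalDegree (Φ.f v) A d) :
    ∃ (χ : Fin (V.dimPred + 1) → (Fin V.dimPred → ℤ) → ℝ) (c : Fin (V.dimPred + 1) → V.NS)
      (v₀ : Fin (V.dimPred + 1) → Fin V.dimPred → ℤ) (L : V.Pic),
      (∀ i, c i ∈ V.Nef) ∧ (∀ i v, 0 < χ i v) ∧ (∀ i v, (Φ.f v).ns (c i) = χ i v • c i) ∧
      (∀ i j, j ≠ i → χ j (v₀ i) < 1) ∧ V.cls L = ∑ i, c i ∧ V.cls L ∈ V.Nef ∧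
      0 < V.int (fun _ => V.cls L) ∧
      ∀ (t : ℝ) (Z₀ : Set V.Pt), 0 < t → IsClosed Z₀ →
        (∀ w : V.Pt → ℝ, V.IsHeight (L - t • A) w → ∃ c0 : ℝ, ∀ x, x ∉ Z₀ → c0 ≤ w x) →
        ∀ e : ℕ, {x | (∃ v, (Φ.f v).pt x ∉ Z₀) ∧ (MulAction.orbit G x).ncard ≤ e ∧
          (Set.range fun v => (Φ.f v).pt x).Finite}.Finite := by
  classical
  obtain ⟨ε, hε, hgap⟩ := exists_gap Φ hA hu
  have hpos' : ∀ v : Fin V.dimPred → ℤ, v ≠ 0 →
      ∃ d, 1 + ε ≤ d ∧ IsDynamicalDegree (Φ.f v) A d := by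
    intro v hv
    obtain ⟨d, hd, hdyn⟩ := hpos v hv
    exact ⟨d, hgap v d hd hdyn, hdyn⟩
  obtain ⟨χ, c, v₀, hcN, hχ0, hχ, hint, hval, hcontr, hexp, hdyn0⟩ :=
    structure_classes hA hr Φ hε hpos'
  obtain ⟨s, η, hs, hη, hinv⟩ := exists_lift V.toVariety
  obtain ⟨hp, hhp⟩ : ∃ hp : V.Pt → ℝ, hp = fun x => max 1 (u x) := ⟨_, rfl⟩
  have hp1 : ∀ x, 1 ≤ hp x := fun x => by rw [hhp]; exact le_max_left _ _
  have hup : ∀ x, u x ≤ hp x := fun x => by rw [hhp]; exact le_max_right _ _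
  have hsq1 : ∀ x, 1 ≤ √(hp x) := fun x => by
    rw [Real.one_le_sqrt]; exact hp1 x
  have hsqle : ∀ x, √(hp x) ≤ hp x := fun x => by
    rw [Real.sqrt_le_left (by linarith [hp1 x])]
    have := hp1 x
    nlinarith
  -- functoriality
  have hpull : ∀ (v : Fin V.dimPred → ℤ) (i : Fin (V.dimPred + 1)), ∃ K : ℝ, 0 < K ∧
      ∀ x, |η (c i) ((Φ.f v).pt x) - χ i v * η (c i) x| ≤ K * √(hp x) := by
    intro v i
    obtain ⟨K, hK, h1⟩ := lift_pull V.toVariety s η hs hη (Φ.f v) hA hu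
    refine ⟨K * ‖c i‖ + 1, by positivity, fun x => ?_⟩
    have h2 := h1 (c i) x
    rw [hχ, map_smul, Pi.smul_apply, smul_eq_mul] at h2
    refine h2.trans ?_
    rw [hhp]
    refine mul_le_mul_of_nonneg_right (by linarith) (Real.sqrt_nonneg _)
  -- growth
  have hgrow : ∀ (v : Fin V.dimPred → ℤ) (d : ℝ), 1 < d → IsDynamicalDegree (Φ.f v) A d →
      ∃ (ℓ : ℕ) (c B : ℝ), 0 < c ∧ 0 < B ∧
        (∀ k, c * gr ℓ d k ≤ V.deg (V.cls A) (((Φ.f v).ns ^ k) (V.cls A))) ∧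
        ∀ k x, hp ((Φ.f v).pt^[k] x) ≤ B * gr ℓ d k * hp x := by
    intro v d hd hdyn
    obtain ⟨ℓ, c, B, hc, hB, hlow, -, hmain⟩ := along V.toVariety s η hs hη (Φ.f v) hA hu hd hdyn
    refine ⟨ℓ, c, B + 1, hc, by linarith, hlow, fun k x => ?_⟩
    have h1 := (hmain k x).1
    have h2 := gr_one_le ℓ hd k
    have h3 := hp1 x
    have h4 : 1 ≤ gr ℓ d k * hp x := by nlinarith
    have h5 : u ((Φ.f v).pt^[k] x) ≤ B * (gr ℓ d k * hp x) := by
      rw [hhp, ← mul_assoc]; exact h1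
    have h6 : 0 ≤ B * (gr ℓ d k * hp x) := by positivity
    rw [show hp ((Φ.f v).pt^[k] x) = max 1 (u ((Φ.f v).pt^[k] x)) by rw [hhp], mul_assoc, add_mul,
      one_mul]
    exact max_le (by linarith) (by linarith)
  -- canonical heights
  have hcan : ∀ i : Fin (V.dimPred + 1), ∃ (h : V.Pt → ℝ) (C : ℝ), 0 < C ∧
      (∀ x, |h x - η (c i) x| ≤ C * √(hp x)) ∧
      ∀ (v : Fin V.dimPred → ℤ) x, h ((Φ.f v).pt x) = χ i v * h x := by
    intro i
    obtain ⟨K, hK, h1⟩ := hpull (v₀ i) i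
    obtain ⟨ℓ, -, B, -, hB, -, h2⟩ := hgrow (v₀ i) (χ i (v₀ i)) (hexp i) (hdyn0 i)
    obtain ⟨h, C, hC, h3, h4, h5⟩ := can (Φ.f (v₀ i)).pt (η (c i)) hp (hexp i) hK hB h1 h2
    refine ⟨h, C, hC, h3, fun v x => ?_⟩
    obtain ⟨K', hK', h6⟩ := hpull v i
    refine can_equiv (g := (Φ.f (v₀ i)).pt) (f := (Φ.f v).pt) (hexp i) (fun y => ?_) h6 h4 h5 x
    rw [← Φ.pt_add, ← Φ.pt_add, add_comm]
  choose hh C hC hhη hhF using hcan
  -- the big class
  obtain ⟨L, hL⟩ : ∃ L : V.Pic, L = ∑ i, s (c i) := ⟨_, rfl⟩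
  have hLcls : V.cls L = ∑ i, c i := by
    rw [hL, map_sum]
    exact Finset.sum_congr rfl fun i _ => hs _
  have hLnef : V.cls L ∈ V.Nef := by
    rw [hLcls]
    exact sum_mem V.nef_cone _ _ fun i _ => hcN i
  have hLpos : 0 < V.int (fun _ => V.cls L) := by
    rw [hLcls]
    have h1 : V.int (fun _ => ∑ i, c i)
        = ∑ φ : Fin (V.dimPred + 1) → Fin (V.dimPred + 1), V.int (fun k => c (φ k)) :=
      V.int.map_sum (fun _ j => c j)
    rw [h1]
    refine lt_of_lt_of_le hint ?_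
    exact Finset.single_le_sum (f := fun φ : Fin (V.dimPred + 1) → Fin (V.dimPred + 1) =>
      V.int (fun k => c (φ k))) (fun φ _ => V.int_nonneg _ fun k => hcN _)
      (Finset.mem_univ (fun k => k))
  have hLη : V.IsHeight L (∑ i, η (c i)) := by
    unfold Variety.IsHeight
    rw [hL, map_sum, map_sum]
    exact Finset.sum_congr rfl fun i _ => hη _
  refine ⟨χ, c, v₀, L, hcN, hχ0, hχ, hcontr, hLcls, hLnef, hLpos, ?_⟩
  intro t Z₀ ht hZ₀ hEff
  obtain ⟨c0, hc0⟩ := hEff _ (height_sub V.toVariety hLη (height_smul V.toVariety t hu))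
  have hZb : ∀ x, x ∉ Z₀ → u x ≤ t⁻¹ * (∑ i, |η (c i) x| + |c0|) := by
    intro x hx
    have h1 := hc0 x hx
    simp only [Pi.sub_apply, Finset.sum_apply, Pi.smul_apply, smul_eq_mul] at h1
    have h2 : ∑ i, η (c i) x ≤ ∑ i, |η (c i) x| := Finset.sum_le_sum fun i _ => le_abs_self _
    have h3 := neg_abs_le c0
    rw [le_inv_mul_iff₀ ht]
    linarith
  have hbig : ∃ C4 : ℝ, ∀ x, x ∉ Z₀ → (∀ i, |hh i x| ≤ 1) → hp x ≤ C4 := by
    obtain ⟨M, hM⟩ : ∃ M : ℝ, M = 1 + t⁻¹ * (∑ i, (1 + C i) + |c0|) := ⟨_, rfl⟩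
    refine ⟨M ^ 2, fun x hx hi => ?_⟩
    have hq := hsq1 x
    have h1 : ∀ i, |η (c i) x| ≤ (1 + C i) * √(hp x) := by
      intro i
      have h2 := hhη i x
      have h3 : |η (c i) x| ≤ |hh i x| + |hh i x - η (c i) x| := by
        have := abs_sub (hh i x) (hh i x - η (c i) x)
        rwa [sub_sub_cancel] at this
      have h4 := hi i
      nlinarith
    have h2 : ∑ i, |η (c i) x| ≤ (∑ i, (1 + C i)) * √(hp x) := by
      rw [Finset.sum_mul]
      exact Finset.sum_le_sum fun i _ => h1 i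
    have h3 : |c0| ≤ |c0| * √(hp x) := le_mul_of_one_le_right (abs_nonneg _) hq
    have h4 : u x ≤ t⁻¹ * ((∑ i, (1 + C i)) * √(hp x) + |c0| * √(hp x)) :=
      (hZb x hx).trans (mul_le_mul_of_nonneg_left (by linarith) (by positivity))
    have h5 : 0 ≤ t⁻¹ * ((∑ i, (1 + C i)) * √(hp x) + |c0| * √(hp x)) := by
      have : 0 ≤ ∑ i, (1 + C i) := Finset.sum_nonneg fun i _ => by linarith [hC i]
      positivity
    have h6 : hp x ≤ M * √(hp x) := by
      have h7 : hp x ≤ 1 + t⁻¹ * ((∑ i, (1 + C i)) * √(hp x) + |c0| * √(hp x)) := by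
        calc hp x = max 1 (u x) := by rw [hhp]
          _ ≤ _ := max_le (by linarith) (by linarith)
      refine h7.trans ?_
      rw [hM]
      have h8 : (1 + t⁻¹ * (∑ i, (1 + C i) + |c0|)) * √(hp x)
          = √(hp x) + t⁻¹ * ((∑ i, (1 + C i)) * √(hp x) + |c0| * √(hp x)) := by ring
      rw [h8]
      linarith
    have h7 : √(hp x) ≤ M := by
      have h8 : √(hp x) * √(hp x) ≤ M * √(hp x) := by
        rw [Real.mul_self_sqrt (by linarith [hp1 x])]
        exact h6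
      exact le_of_mul_le_mul_right h8 (by linarith)
    calc hp x = √(hp x) ^ 2 := (Real.sq_sqrt (by linarith [hp1 x])).symm
      _ ≤ M ^ 2 := pow_le_pow_left₀ (Real.sqrt_nonneg _) h7 2
  -- the system
  let S : Sys V.Pt (V.dimPred + 1) V.dimPred :=
    { F := fun v => (Φ.f v).pt
      zero := Φ.pt_zero
      add := Φ.pt_add
      cont := Φ.continuous_pt
      hp := hp
      deg := fun x => (MulAction.orbit G x).ncard
      deg_F := fun v x => ncard_orbit Φ v x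
      fin := fun e C => (V.northcott A u hA hu e C).subset fun x hx => ⟨hx.1, (hup x).trans hx.2⟩
      χ := χ
      χ_pos := hχ0
      hh := hh
      hh_F := hhF
      Z₀ := Z₀
      closed := hZ₀
      big := hbig
      v₀ := v₀
      contract := hcontr
      expand := hexp }
  intro e
  refine (S.main.2 e).subset ?_
  rintro x ⟨⟨v, hv⟩, hxe, hxf⟩
  exact ⟨fun h => hv (h v), hxe, hxf⟩

end Run7.h334.KSR
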