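import Mathlib
import Pool.Agent.Run7.h334.KSR.Main2

/-!
Invariant subvarieties and Zariski dense orbits for groups of automorphisms of maximal rank.
-/

set_option autoImplicit false

open Filter Topology TopologicalSpace
open Pool.Agent.Q8.KS

namespace Run7.h334.KSR

/-! ### Components of invariant closed subsets -/

/-- A group acting on a Noetherian space by homeomorphisms permutes the components of an invariant
closed subset. -/
lemma exists_component {X Λ : Type} [TopologicalSpace X] [NoetherianSpace X] [AddCommGroup Λ]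
    (F : Λ → X → X) (zero : ∀ x, F 0 x = x) (add : ∀ v w x, F (v + w) x = F v (F w x))
    (cont : ∀ v, Continuous (F v)) {Y : Set X} (hY : IsClosed Y) (hFY : ∀ v, ∀ x ∈ Y, F v x ∈ Y)
    {y : X} (hy : y ∈ Y) :
    ∃ W : Set X, IsClosed W ∧ IsIrreducible W ∧ y ∈ W ∧ W ⊆ Y ∧
      ∀ v, ∃ N : ℕ, 0 < N ∧ F (N • v) '' W = W := by
  classical
  obtain ⟨S, hSfin, hSc, hSi, hSY⟩ := NoetherianSpace.exists_finite_set_isClosed_irreducible hY
  -- the images of closed sets
  have hleft : ∀ v x, F (-v) (F v x) = x := fun v x => by rw [← add, neg_add_cancel, zero]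
  have hright : ∀ v x, F v (F (-v) x) = x := fun v x => by rw [← add, add_neg_cancel, zero]
  have himg : ∀ v (W : Set X), F v '' W = F (-v) ⁻¹' W := by
    intro v W
    ext z
    constructor
    · rintro ⟨w, hw, rfl⟩
      show F (-v) (F v w) ∈ W
      rw [hleft]
      exact hw
    · intro hz
      exact ⟨F (-v) z, hz, hright v z⟩
  have hclosed : ∀ v (W : Set X), IsClosed W → IsClosed (F v '' W) := by
    intro v W hW
    rw [himg]
    exact hW.preimage (cont _)
  have hirr : ∀ v (W : Set X), IsIrreducible W → IsIrreducible (F v '' W) := fun v W hW =>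
    hW.image _ (cont v).continuousOn
  have hcomp : ∀ v w (W : Set X), F (v + w) '' W = F v '' (F w '' W) := by
    intro v w W
    rw [Set.image_image]
    exact Set.image_congr fun x _ => add v w x
  have hneg : ∀ v (W : Set X), F (-v) '' (F v '' W) = W := by
    intro v W
    rw [Set.image_image]
    simp [hleft]
  -- irreducible closed subsets lie in a member of `S`
  have hin : ∀ W : Set X, IsIrreducible W → W ⊆ Y → ∃ k ∈ S, W ⊆ k := by
    intro W hW hWY
    obtain ⟨k, hk, hWk⟩ := (isIrreducible_iff_sUnion_isClosed.1 hW) hSfin.toFinset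
      (fun z hz => hSc z (hSfin.mem_toFinset.1 hz)) (by
        rw [hSfin.coe_toFinset, ← hSY]
        exact hWY)
    exact ⟨k, hSfin.mem_toFinset.1 hk, hWk⟩
  have hSsub : ∀ k ∈ S, k ⊆ Y := by
    intro k hk
    rw [hSY]
    exact Set.subset_sUnion_of_mem hk
  obtain ⟨k, hk, hyk⟩ : ∃ k ∈ S, y ∈ k := by
    rw [hSY] at hy
    exact hy
  obtain ⟨W, hkW, hWmax⟩ := hSfin.exists_le_maximal hk
  have hWS : W ∈ S := hWmax.1
  have hmem : ∀ v, F v '' W ∈ S := by
    intro v
    have h1 : F v '' W ⊆ Y := by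
      rintro _ ⟨x, hx, rfl⟩
      exact hFY v x (hSsub W hWS hx)
    obtain ⟨k', hk', hWk'⟩ := hin _ (hirr v W (hSi W hWS)) h1
    have h2 : F (-v) '' k' ⊆ Y := by
      rintro _ ⟨x, hx, rfl⟩
      exact hFY (-v) x (hSsub k' hk' hx)
    obtain ⟨k'', hk'', hWk''⟩ := hin _ (hirr (-v) k' (hSi k' hk')) h2
    have h3 : W ⊆ F (-v) '' k' := by
      have := Set.image_mono (f := F (-v)) hWk'
      rwa [hneg] at this
    have h4 : k'' ≤ W := hWmax.2 hk'' (h3.trans hWk'')
    have h5 : F (-v) '' k' ⊆ W := hWk''.trans h4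
    have h6 : k' ⊆ F v '' W := by
      have := Set.image_mono (f := F v) h5
      have h7 : F v '' (F (-v) '' k') = k' := by
        have := hneg (-v) k'
        rwa [neg_neg] at this
      rwa [h7] at this
    rw [Set.Subset.antisymm hWk' h6]
    exact hk'
  refine ⟨W, hSc W hWS, hSi W hWS, hkW hyk, hSsub W hWS, fun v => ?_⟩
  have : Finite S := hSfin
  obtain ⟨a, b, hab, he⟩ := Finite.exists_ne_map_eq_of_infinite
    (fun n : ℕ => (⟨F (n • v) '' W, hmem _⟩ : S))
  have he' : F (a • v) '' W = F (b • v) '' W := congrArg Subtype.val he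
  have key : ∀ a b : ℕ, a < b → F (a • v) '' W = F (b • v) '' W →
      ∃ N : ℕ, 0 < N ∧ F (N • v) '' W = W := by
    intro a b hab he
    refine ⟨b - a, by omega, ?_⟩
    have h1 : b • v = a • v + (b - a) • v := by
      rw [← add_nsmul]
      congr 1
      omega
    rw [h1, hcomp] at he
    have h2 := congrArg (fun T => F (-(a • v)) '' T) he
    simp only [hneg] at h2
    exact h2.symm
  rcases lt_or_gt_of_ne hab with h | h
  · exact key a b h he'
  · exact key b a h he'.symm

variable {G : Type} [Group G]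

/-! ### Subvarieties -/

/-- Intersection numbers of nef classes with subvarieties are not negative. -/
def SubNonneg (V : ProjVariety G) (dim : Set V.Pt → ℕ)
    (int : ∀ W : Set V.Pt, MultilinearMap ℝ (fun _ : Fin (dim W) => V.NS) ℝ) : Prop :=
  ∀ W, IsClosed W → IsIrreducible W → ∀ D : Fin (dim W) → V.NS, (∀ i, D i ∈ V.Nef) → 0 ≤ int W D

/-- `A^p ⋅ W > 0` for `A` ample, `p = dim W`. -/
def SubAmple (V : ProjVariety G) (dim : Set V.Pt → ℕ)
    (int : ∀ W : Set V.Pt, MultilinearMap ℝ (fun _ : Fin (dim W) => V.NS) ℝ) : Prop :=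
  ∀ W, IsClosed W → IsIrreducible W → ∀ A : V.Pic, V.IsAmple A → 0 < int W (fun _ => V.cls A)

/-- An effective divisor with support `S` and a subvariety `W` not contained in `S`:
`D ⋅ D₂ ⋯ D_p ⋅ W ≥ 0` for `D₂, …, D_p` nef. -/
def SubEff (V : ProjVariety G) (dim : Set V.Pt → ℕ)
    (int : ∀ W : Set V.Pt, MultilinearMap ℝ (fun _ : Fin (dim W) => V.NS) ℝ)
    (Supp : V.Pic → Set V.Pt → Prop) : Prop :=
  ∀ D S, Supp D S → ∀ W, IsClosed W → IsIrreducible W → ¬ W ⊆ S →
    ∀ N : Fin (dim W) → V.NS, (∀ i, N i ∈ V.Nef) → ∀ i, 0 ≤ int W (Function.update N i (V.cls D))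

/-- The support of an effective divisor: a proper closed subset outside of which the height is
bounded below. -/
def SuppHeight (V : ProjVariety G) (Supp : V.Pic → Set V.Pt → Prop) : Prop :=
  ∀ D S, Supp D S → IsClosed S ∧ S ≠ Set.univ ∧
    ∀ u : V.Pt → ℝ, V.IsHeight D u → ∃ c : ℝ, ∀ x, x ∉ S → c ≤ u x

/-- Kodaira's lemma: if `L` is nef, `L^m > 0` and `A` is ample, then `L - t A` is the class of an
effective divisor for some `t > 0`. -/
def SuppKodaira (V : ProjVariety G) (Supp : V.Pic → Set V.Pt → Prop) : Prop :=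
  ∀ L A : V.Pic, V.cls L ∈ V.Nef → 0 < V.int (fun _ => V.cls L) → V.IsAmple A →
    ∃ t : ℝ, 0 < t ∧ ∃ S, Supp (L - t • A) S

/-- The subvarieties of `V`, with their intersection numbers and the supports of the effective
divisors. -/
structure Subvarieties (V : ProjVariety G) where
  /-- the dimension of an irreducible closed subset -/
  dim : Set V.Pt → ℕ
  dim_lt : ∀ W, IsClosed W → IsIrreducible W → W ≠ Set.univ → dim W < V.dimPred + 1
  dim_zero : ∀ W, IsClosed W → IsIrreducible W → dim W = 0 → W.Subsingleton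
  /-- the intersection number `D₁ ⋯ D_p ⋅ W`, `p = dim W` -/
  int : ∀ W : Set V.Pt, MultilinearMap ℝ (fun _ : Fin (dim W) => V.NS) ℝ
  nonneg : SubNonneg V dim int
  ample : SubAmple V dim int
  /-- `Supp D S`: the class `D` contains an effective divisor (with real coefficients) with
  support `S` -/
  Supp : V.Pic → Set V.Pt → Prop
  eff : SubEff V dim int Supp
  height : SuppHeight V Supp
  kodaira : SuppKodaira V Supp
  /-- outside of every proper closed subset there are infinitely many points of bounded degree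
  over `K` (consider a finite map to a projective space) -/
  points : ∃ e : ℕ, ∀ S : Set V.Pt, IsClosed S → S ≠ Set.univ →
    {x | x ∉ S ∧ (MulAction.orbit G x).ncard ≤ e}.Infinite

/-- The projection formula for an automorphism `f` and the subvarieties with `f(W) = W`. -/
def PreservesSub {V : ProjVariety G} (T : Subvarieties V)
    (f : Morphism V.toVariety V.toVariety) : Prop :=
  ∀ W, IsClosed W → IsIrreducible W → f.pt '' W = W →
    ∀ D : Fin (T.dim W) → V.NS, T.int W (fun k => f.ns (D k)) = T.int W D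

variable {V : ProjVariety G}

/-- `L^p ⋅ W > 0` if `L - t A` is effective and its support does not contain `W`. -/
lemma sub_pos (T : Subvarieties V) {L A : V.Pic} (hL : V.cls L ∈ V.Nef) (hA : V.IsAmple A)
    {t : ℝ} (ht : 0 < t) {S : Set V.Pt} (hS : T.Supp (L - t • A) S) {W : Set V.Pt}
    (hW : IsClosed W) (hWi : IsIrreducible W) (hWS : ¬ W ⊆ S) :
    0 < T.int W (fun _ => V.cls L) := by
  classical
  have hAn : V.cls A ∈ V.Nef := interior_subset hA
  have key : ∀ s : Finset (Fin (T.dim W)), ∃ κ : ℝ, 0 < κ ∧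
      κ * T.int W (s.piecewise (fun _ => V.cls A) (fun _ => V.cls L))
        ≤ T.int W (fun _ => V.cls L) := by
    intro s
    induction s using Finset.induction_on with
    | empty => exact ⟨1, one_pos, by rw [Finset.piecewise_empty, one_mul]⟩
    | insert a s ha ih =>
      obtain ⟨κ, hκ, h1⟩ := ih
      have hZ : ∀ k, s.piecewise (fun _ => V.cls A) (fun _ => V.cls L) k ∈ V.Nef := by
        intro k
        by_cases hk : k ∈ s
        · rw [Finset.piecewise_eq_of_mem _ _ _ hk]; exact hAn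
        · rw [Finset.piecewise_eq_of_notMem _ _ _ hk]; exact hL
      have h2 := T.eff _ _ hS W hW hWi hWS _ hZ a
      have h3 : V.cls (L - t • A) = V.cls L - t • V.cls A := by rw [map_sub, map_smul]
      rw [h3, (T.int W).map_update_sub, (T.int W).map_update_smul, smul_eq_mul] at h2
      have h4 : Function.update (s.piecewise (fun _ => V.cls A) (fun _ => V.cls L)) a (V.cls L)
          = s.piecewise (fun _ => V.cls A) (fun _ => V.cls L) := by
        rw [Function.update_eq_self_iff]
        simp only [Finset.piecewise_eq_of_notMem _ _ _ ha]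
      rw [h4] at h2
      refine ⟨κ * t, mul_pos hκ ht, ?_⟩
      rw [Finset.piecewise_insert]
      refine le_trans ?_ h1
      rw [mul_assoc]
      exact mul_le_mul_of_nonneg_left (by linarith) hκ.le
  obtain ⟨κ, hκ, h⟩ := key Finset.univ
  rw [Finset.piecewise_univ] at h
  exact (mul_pos hκ (T.ample W hW hWi A hA)).trans_le h

/-- A point all of whose orbits under the cyclic subgroups are finite has a finite orbit. -/
lemma finite_of_periodic {r : ℕ} (Φ : LatticeAction V r) (x : V.Pt)
    (hper : ∀ w, ∃ N : ℕ, 0 < N ∧ (Φ.f (N • w)).pt x = x) :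
    (Set.range fun v => (Φ.f v).pt x).Finite := by
  choose N hN hper using hper
  let P : Fin r → ℤ := fun k => (N (Pi.single k 1) : ℤ)
  have hP : ∀ k, 0 < P k := fun k => by
    have := hN (Pi.single k 1)
    show (0 : ℤ) < (N (Pi.single k 1) : ℤ)
    exact_mod_cast this
  let St : AddSubgroup (Fin r → ℤ) :=
    { carrier := {v | (Φ.f v).pt x = x}
      add_mem' := by
        intro a b ha hb
        show (Φ.f (a + b)).pt x = x
        rw [Φ.pt_add, show (Φ.f b).pt x = x from hb]
        exact ha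
      zero_mem' := Φ.pt_zero x
      neg_mem' := by
        intro a ha
        show (Φ.f (-a)).pt x = x
        have h1 : (Φ.f (-a)).pt ((Φ.f a).pt x) = x := by
          rw [← Φ.pt_add, neg_add_cancel, Φ.pt_zero]
        rwa [show (Φ.f a).pt x = x from ha] at h1 }
  have hSt : ∀ k, Pi.single k (P k) ∈ St := by
    intro k
    show (Φ.f (Pi.single k (P k))).pt x = x
    have h1 := hper (Pi.single k 1)
    have h2 : (N (Pi.single k 1) • Pi.single k 1 : Fin r → ℤ) = Pi.single k (P k) := by
      rw [← Pi.single_smul]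
      simp [P]
    rwa [h2] at h1
  have hfin : (Set.Icc (0 : Fin r → ℤ) P).Finite := Set.finite_Icc _ _
  refine (hfin.image fun v => (Φ.f v).pt x).subset ?_
  rintro _ ⟨v, rfl⟩
  refine ⟨fun k => v k % P k, ⟨fun k => Int.emod_nonneg _ (hP k).ne',
    fun k => (Int.emod_lt_of_pos _ (hP k)).le⟩, ?_⟩
  have h1 : v - (fun k => v k % P k) ∈ St := by
    have h2 : v - (fun k => v k % P k) = ∑ k, (v k / P k) • Pi.single k (P k) := by
      funext k
      rw [Finset.sum_apply, Finset.sum_eq_single k]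
      · simp only [Pi.sub_apply, Pi.smul_apply, Pi.single_eq_same, smul_eq_mul]
        have := Int.emod_add_mul_ediv (v k) (P k)
        linarith
      · intro j _ hj
        simp [hj.symm]
      · simp
    rw [h2]
    exact AddSubgroup.sum_mem _ fun k _ => AddSubgroup.zsmul_mem _ (hSt k) _
  have h2 : (Φ.f (v - (fun k => v k % P k))).pt x = x := h1
  show (Φ.f (fun k => v k % P k)).pt x = (Φ.f v).pt x
  have h3 : v = (fun k => v k % P k) + (v - (fun k => v k % P k)) := by abel
  conv_rhs => rw [h3, Φ.pt_add, h2]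

/-- **Orbits are finite or dense.** -/
lemma finite_or_dense (T : Subvarieties V) (Φ : LatticeAction V V.dimPred)
    (hΦ : ∀ v, PreservesSub T (Φ.f v)) {A : V.Pic} (hA : V.IsAmple A)
    {χ : Fin (V.dimPred + 1) → (Fin V.dimPred → ℤ) → ℝ} {c : Fin (V.dimPred + 1) → V.NS}
    {v₀ : Fin (V.dimPred + 1) → Fin V.dimPred → ℤ} {L : V.Pic} (hχ0 : ∀ i v, 0 < χ i v)
    (hχ : ∀ i v, (Φ.f v).ns (c i) = χ i v • c i)
    (hcontr : ∀ i j, j ≠ i → χ j (v₀ i) < 1) (hL : V.cls L = ∑ i, c i)
    (hLn : V.cls L ∈ V.Nef) {t : ℝ} (ht : 0 < t) {S : Set V.Pt} (hS : T.Supp (L - t • A) S)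
    (x : V.Pt) (hx : ∃ v, (Φ.f v).pt x ∉ S) :
    (Set.range fun v => (Φ.f v).pt x).Finite ∨ Dense (Set.range fun v => (Φ.f v).pt x) := by
  classical
  obtain ⟨w, hw⟩ := hx
  obtain ⟨Y, hYdef⟩ : ∃ Y, Y = closure (Set.range fun v => (Φ.f v).pt x) := ⟨_, rfl⟩
  have hY : IsClosed Y := by rw [hYdef]; exact isClosed_closure
  have hmem : ∀ v, (Φ.f v).pt x ∈ Y := fun v => by
    rw [hYdef]
    exact subset_closure ⟨v, rfl⟩
  have hFY : ∀ v, ∀ y ∈ Y, (Φ.f v).pt y ∈ Y := by
    intro v y hy
    rw [hYdef] at hy ⊢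
    have h1 := image_closure_subset_closure_image (Φ.continuous_pt v) ⟨y, hy, rfl⟩
    refine closure_mono ?_ h1
    rintro _ ⟨_, ⟨a, rfl⟩, rfl⟩
    exact ⟨v + a, Φ.pt_add v a x⟩
  obtain ⟨W, hWc, hWi, hyW, hWY, hWN⟩ := exists_component (fun v => (Φ.f v).pt) Φ.pt_zero
    Φ.pt_add Φ.continuous_pt hY hFY (hmem w)
  have hWS : ¬ W ⊆ S := fun h => hw (h hyW)
  by_cases hWu : W = Set.univ
  · right
    rw [dense_iff_closure_eq, ← hYdef]
    rw [hWu] at hWY
    exact Set.eq_univ_of_univ_subset hWY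
  have hdim := T.dim_lt W hWc hWi hWu
  by_cases h0 : T.dim W = 0
  · -- the component is a point
    left
    have hsub := T.dim_zero W hWc hWi h0
    have hfin : (Set.range fun v => (Φ.f v).pt ((Φ.f w).pt x)).Finite := by
      refine finite_of_periodic Φ _ fun v => ?_
      obtain ⟨N, hN, hNW⟩ := hWN v
      refine ⟨N, hN, hsub ?_ hyW⟩
      rw [← hNW]
      exact ⟨_, hyW, rfl⟩
    refine hfin.subset ?_
    rintro _ ⟨v, rfl⟩
    refine ⟨v - w, ?_⟩
    show (Φ.f (v - w)).pt ((Φ.f w).pt x) = (Φ.f v).pt x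
    rw [← Φ.pt_add, sub_add_cancel]
  -- a product of characters is trivial
  exfalso
  have hpos := sub_pos T hLn hA ht hS hWc hWi hWS
  rw [hL] at hpos
  have h1 : T.int W (fun _ => ∑ i, c i)
      = ∑ φ : Fin (T.dim W) → Fin (V.dimPred + 1), T.int W (fun k => c (φ k)) :=
    (T.int W).map_sum (fun _ j => c j)
  rw [h1] at hpos
  obtain ⟨φ, -, hφ⟩ : ∃ φ ∈ (Finset.univ : Finset (Fin (T.dim W) → Fin (V.dimPred + 1))),
      0 < T.int W (fun k => c (φ k)) := by
    by_contra hcon
    push Not at hcon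
    exact absurd hpos (not_lt.2 (Finset.sum_nonpos hcon))
  have hprod : ∀ v, ∏ k, χ (φ k) v = 1 := by
    intro v
    obtain ⟨N, hN, hNW⟩ := hWN v
    have h2 := hΦ (N • v) W hWc hWi hNW (fun k => c (φ k))
    have h3 : (fun k => (Φ.f (N • v)).ns (c (φ k))) = fun k => χ (φ k) (N • v) • c (φ k) :=
      funext fun k => hχ _ _
    rw [h3, (T.int W).map_smul_univ, smul_eq_mul] at h2
    have h4 : ∏ k, χ (φ k) (N • v) = 1 := mul_right_cancel₀ hφ.ne' (by rw [h2, one_mul])
    have hc0 : ∀ k, c (φ k) ≠ 0 := by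
      intro k hk
      have h5 : T.int W (fun k => c (φ k)) = 0 := (T.int W).map_coord_zero k hk
      exact hφ.ne' h5
    have hmul : ∀ k (a b : Fin V.dimPred → ℤ), χ (φ k) (a + b) = χ (φ k) a * χ (φ k) b := by
      intro k a b
      have h5 : χ (φ k) (a + b) • c (φ k) = (χ (φ k) a * χ (φ k) b) • c (φ k) := by
        rw [← hχ, Φ.ns_add, hχ, map_smul, hχ, smul_smul, mul_comm]
      exact smul_left_injective ℝ (hc0 k) h5
    have hpow : ∀ k (n : ℕ), χ (φ k) (n • v) = χ (φ k) v ^ n := by
      intro k n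
      induction n with
      | zero =>
        rw [zero_smul, pow_zero]
        have h5 := hmul k 0 0
        rw [add_zero] at h5
        have h6 := hχ0 (φ k) 0
        field_simp at h5
        linarith
      | succ n ih => rw [succ_nsmul, hmul, ih, pow_succ]
    have h5 : (∏ k, χ (φ k) v) ^ N = 1 := by
      rw [← Finset.prod_pow, ← h4]
      exact Finset.prod_congr rfl fun k _ => (hpow k N).symm
    have h6 : 0 ≤ ∏ k, χ (φ k) v := Finset.prod_nonneg fun k _ => (hχ0 _ _).le
    exact (pow_eq_one_iff_of_nonneg h6 hN.ne').1 h5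
  -- an index which is not used
  obtain ⟨i, hi⟩ : ∃ i, ∀ k, φ k ≠ i := by
    by_contra hcon
    push Not at hcon
    have hsurj : Function.Surjective φ := hcon
    have := Fintype.card_le_of_surjective φ hsurj
    simp only [Fintype.card_fin] at this
    omega
  have h2 := hprod (v₀ i)
  have h3 : ∏ k, χ (φ k) (v₀ i) < 1 := by
    have hne : (Finset.univ : Finset (Fin (T.dim W))).Nonempty := by
      refine ⟨⟨0, by omega⟩, Finset.mem_univ _⟩
    have h4 : ∏ k, χ (φ k) (v₀ i) < ∏ k : Fin (T.dim W), (1 : ℝ) :=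
      Finset.prod_lt_prod_of_nonempty (fun k _ => hχ0 _ _) (fun k _ => hcontr i _ (hi k)) hne
    rwa [Finset.prod_const_one] at h4
  linarith

/-- The `L`-rational points: the points fixed by the subgroup `H` of the Galois group. -/
def ratPts (V : ProjVariety G) (H : Subgroup G) : Set V.Pt := {x | ∀ h ∈ H, h • x = x}

/-- **Rational points of varieties with a group of automorphisms of maximal rank.** -/
theorem density (hr : 0 < V.dimPred) (T : Subvarieties V) (Φ : LatticeAction V V.dimPred)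
    (hΦ : ∀ v, PreservesSub T (Φ.f v)) {A : V.Pic} (hA : V.IsAmple A)
    (hpos : ∀ v : Fin V.dimPred → ℤ, v ≠ 0 → ∃ d, 1 < d ∧ IsDynamicalDegree (Φ.f v) A d) :
    ∃ Z : Set V.Pt, IsClosed Z ∧ Z ≠ Set.univ ∧ (∀ v x, (Φ.f v).pt x ∈ Z ↔ x ∈ Z) ∧
      (∀ x, x ∉ Z → (Set.range fun v => (Φ.f v).pt x).Finite ∨
        Dense (Set.range fun v => (Φ.f v).pt x)) ∧
      (∀ e : ℕ, {x | x ∉ Z ∧ (MulAction.orbit G x).ncard ≤ e ∧
        (Set.range fun v => (Φ.f v).pt x).Finite}.Finite) ∧
      (∀ H : Subgroup G, H.FiniteIndex → (ratPts V H \ Z).Finite ∨ Dense (ratPts V H)) ∧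
      ∃ H : Subgroup G, H.FiniteIndex ∧ Dense (ratPts V H) := by
  classical
  obtain ⟨u, hu, -⟩ := V.galois_height A
  obtain ⟨χ, c, v₀, L, hc, hχ0, hχ, hcontr, hL, hLn, hLpos, hfin⟩ := main2 hr Φ hA hu hpos
  obtain ⟨t, ht, S, hS⟩ := T.kodaira L A hLn hLpos hA
  obtain ⟨hSc, hSu, hSh⟩ := T.height _ _ hS
  have hfin' := hfin t S ht hSc hSh
  obtain ⟨Z, hZdef⟩ : ∃ Z : Set V.Pt, Z = {x | ∀ v, (Φ.f v).pt x ∈ S} := ⟨_, rfl⟩
  have hZmem : ∀ x, x ∉ Z ↔ ∃ v, (Φ.f v).pt x ∉ S := by
    intro x
    rw [hZdef]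
    simp
  have hZc : IsClosed Z := by
    have : Z = ⋂ v, (Φ.f v).pt ⁻¹' S := by
      rw [hZdef]
      ext x
      simp
    rw [this]
    exact isClosed_iInter fun v => hSc.preimage (Φ.continuous_pt v)
  have hZS : Z ⊆ S := by
    intro x hx
    rw [hZdef] at hx
    have := hx 0
    rwa [Φ.pt_zero] at this
  have hZu : Z ≠ Set.univ := by
    intro h
    rw [h] at hZS
    exact hSu (Set.eq_univ_of_univ_subset hZS)
  have hZinv : ∀ v x, (Φ.f v).pt x ∈ Z ↔ x ∈ Z := by
    intro v x
    rw [hZdef]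
    constructor
    · intro h w
      have := h (w - v)
      rwa [← Φ.pt_add, sub_add_cancel] at this
    · intro h w
      rw [← Φ.pt_add]
      exact h _
  have hdich : ∀ x, x ∉ Z → (Set.range fun v => (Φ.f v).pt x).Finite ∨
      Dense (Set.range fun v => (Φ.f v).pt x) := fun x hx =>
    finite_or_dense T Φ hΦ hA hχ0 hχ hcontr hL hLn ht hS x ((hZmem x).1 hx)
  have hfinZ : ∀ e : ℕ, {x | x ∉ Z ∧ (MulAction.orbit G x).ncard ≤ e ∧
      (Set.range fun v => (Φ.f v).pt x).Finite}.Finite := by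
    intro e
    refine (hfin' e).subset ?_
    rintro x ⟨hx, hx2⟩
    exact ⟨(hZmem x).1 hx, hx2⟩
  -- the orbit of a rational point consists of rational points
  have hrat : ∀ (H : Subgroup G) (x : V.Pt), x ∈ ratPts V H →
      (Set.range fun v => (Φ.f v).pt x) ⊆ ratPts V H := by
    rintro H x hx _ ⟨v, rfl⟩ h hh
    show h • (Φ.f v).pt x = (Φ.f v).pt x
    rw [← (Φ.f v).pt_smul, hx h hh]
  refine ⟨Z, hZc, hZu, hZinv, hdich, hfinZ, ?_, ?_⟩
  · intro H hH
    by_cases h : ∃ x ∈ ratPts V H, x ∉ Z ∧ Dense (Set.range fun v => (Φ.f v).pt x)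
    · obtain ⟨x, hx, -, hxd⟩ := h
      exact Or.inr (hxd.mono (hrat H x hx))
    · push Not at h
      left
      refine (hfinZ H.index).subset ?_
      rintro x ⟨hx, hxZ⟩
      refine ⟨hxZ, ?_, (hdich x hxZ).resolve_right (h x hx hxZ)⟩
      -- the degree of a rational point
      have hle : H ≤ MulAction.stabilizer G x := fun g hg => hx g hg
      have h1 : (MulAction.orbit G x).ncard = (MulAction.stabilizer G x).index :=
        (MulAction.index_stabilizer G x).symm
      rw [h1]
      exact Nat.le_of_dvd (Nat.pos_of_ne_zero hH.index_ne_zero) (Subgroup.index_dvd_of_le hle)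
  · obtain ⟨e, he⟩ := T.points
    have hinf := he Z hZc hZu
    obtain ⟨x, hx1, hx2⟩ := (hinf.sdiff (hfinZ e)).nonempty
    have hxd : Dense (Set.range fun v => (Φ.f v).pt x) := by
      rcases hdich x hx1.1 with h | h
      · exact absurd ⟨hx1.1, hx1.2, h⟩ hx2
      · exact h
    refine ⟨MulAction.stabilizer G x, ⟨?_⟩, hxd.mono (hrat _ x fun g hg => hg)⟩
    have h1 : (MulAction.stabilizer G x).index = (MulAction.orbit G x).ncard :=
      MulAction.index_stabilizer G x
    rw [h1]
    have h2 : 0 < (MulAction.orbit G x).ncard := by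
      rw [Set.ncard_pos (V.orbit_finite x)]
      exact ⟨x, MulAction.mem_orbit_self x⟩
    omega

end Run7.h334.KSR
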